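import Mathlib
import Pool.Agent.Run7.h794.MK.Stm
import Pool.Agent.Run7.h373.CR.Lz
import Pool.Agent.H336R2.V.Raman
import Pool.Agent.H998.LC.Pow.Base
import Pool.Agent.Run7.h609.MK.Lza
import Pool.Agent.H373R2.T7.LamZ2

/-!
# Primes in Bohr sets in short intervals, part 1: the sieve model with a fixed real frequency
-/

set_option autoImplicit false
set_option maxHeartbeats 4000000

namespace Pool.Agent.Run7.h609.MK

open Finset
open Pool.Agent.Run7.h794.MK
open Pool.Agent.H807R2.Dav (ee ee_add norm_ee ee_eq ee_int ee_zero)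
open Pool.Agent.H373R2.T7 (lamz Vz Vz_inv_le lamz_nonneg Vz_pos ev_L' ev_log')
open Pool.Agent.Q236.CR (S_LZ cc)

lemma eNK (y : ℝ) : Pool.Agent.H469R2.NK.e y = ee y := by
  rw [ee_eq]
  rfl

lemma ex_ee (y : ℝ) : H343.ex y = ee y := by
  rw [ee_eq]
  rfl

lemma cc_bound (q a : ℕ) (hq : 1 ≤ q) (h : a.Coprime q) : ‖cc q a‖ ≤ 1 / (Nat.totient q : ℝ) := by
  have h1 := H336V.raman q hq (a : ℤ)
  have h2 : ∑ d ∈ q.divisors.filter (fun d : ℕ => (d : ℤ) ∣ (a : ℤ)), (d : ℝ) ≤ 1 := by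
    have h3 : q.divisors.filter (fun d : ℕ => (d : ℤ) ∣ (a : ℤ)) ⊆ {1} := by
      intro d hd
      rw [mem_filter, Nat.mem_divisors, Int.natCast_dvd_natCast] at hd
      rw [mem_singleton]
      exact Nat.eq_one_of_dvd_coprimes h hd.2 hd.1.1
    calc _ ≤ ∑ d ∈ ({1} : Finset ℕ), (d : ℝ) := sum_le_sum_of_subset_of_nonneg h3 (fun _ _ _ => Nat.cast_nonneg _)
      _ = 1 := by simp
  have h4 : ∑ b ∈ (Finset.range q).filter (fun b => b.Coprime q), Pool.Agent.H469R2.NK.e ((a : ℝ) * b / q) =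
      ∑ n ∈ (range q).filter (fun n => n.Coprime q), H343.ex ((n : ℝ) * (a : ℤ) / q) := by
    refine sum_congr rfl fun b _ => ?_
    rw [eNK, ex_ee]
    congr 1
    push_cast
    ring
  unfold cc
  rw [h4, norm_mul]
  have h5 : ‖(1 / (Nat.totient q : ℂ))‖ = 1 / (Nat.totient q : ℝ) := by
    rw [norm_div, norm_one, Complex.norm_natCast]
  rw [h5]
  calc _ ≤ 1 / (Nat.totient q : ℝ) * 1 := by
        apply mul_le_mul_of_nonneg_left (h1.trans h2)
        positivity
    _ = _ := mul_one _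

/-- the totient is large -/
lemma tot_large (η : ℝ) (hη : 0 < η) : ∃ D : ℕ, ∀ q : ℕ, D < q → 1 / (Nat.totient q : ℝ) ≤ η := by
  obtain ⟨D, hD⟩ := exists_nat_gt (2 / η ^ 2)
  refine ⟨D, fun q hq => ?_⟩
  have hq0 : q ≠ 0 := by omega
  have h1 := Pool.Agent.H998.LC.Pow.le_two_mul_totient_sq hq0
  have h2 : (0 : ℝ) < Nat.totient q := by exact_mod_cast Nat.totient_pos.2 (by omega)
  have h3 : (q : ℝ) ≤ 2 * (Nat.totient q : ℝ) ^ 2 := by exact_mod_cast h1
  have h4 : (D : ℝ) < q := by exact_mod_cast hq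
  have h5 : 2 / η ^ 2 < 2 * (Nat.totient q : ℝ) ^ 2 := by linarith
  rw [div_lt_iff₀ (by positivity)] at h5
  have h6 : 1 < ((Nat.totient q : ℝ) * η) ^ 2 := by nlinarith
  have h7 : 1 < (Nat.totient q : ℝ) * η := by
    by_contra hcon
    push Not at hcon
    have : ((Nat.totient q : ℝ) * η) ^ 2 ≤ 1 := pow_le_one₀ (by positivity) hcon
    linarith
  rw [div_le_iff₀ h2]
  linarith

/-- partial summation against a slowly varying character -/
lemma abel (a : ℕ → ℂ) (β : ℝ) (n H : ℕ) (K : ℝ) (hK : ∀ t ≤ H, ‖∑ m ∈ Ioc n (n + t), a m‖ ≤ K) :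
    ‖∑ m ∈ Ioc n (n + H), a m * ee ((m : ℝ) * β)‖ ≤ K * (1 + 2 * Real.pi * |β| * H) := by
  set A : ℕ → ℂ := fun t => ∑ m ∈ Ioc n (n + t), a m with hA
  have hstep : ∀ t, A (t + 1) = A t + a (n + t + 1) := by
    intro t
    simp only [hA]
    rw [show n + (t + 1) = (n + t) + 1 by ring, ← Finset.insert_Ioc_right_eq_Ioc_add_one (by omega : n ≤ n + t),
      sum_insert (by simp)]
    ring
  have key : ∀ t, ∑ m ∈ Ioc n (n + t), a m * ee ((m : ℝ) * β) =
      A t * ee (((n + t : ℕ) : ℝ) * β) - ∑ i ∈ range t, A i * (ee (((n + i + 1 : ℕ) : ℝ) * β) - ee (((n + i : ℕ) : ℝ) * β)) := by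
    intro t
    induction t with
    | zero => simp [hA]
    | succ t ih =>
      rw [show n + (t + 1) = (n + t) + 1 by ring, ← Finset.insert_Ioc_right_eq_Ioc_add_one (by omega : n ≤ n + t),
        sum_insert (by simp), ih, sum_range_succ, hstep]
      ring
  rw [key H]
  have hK0 : 0 ≤ K := (norm_nonneg _).trans (hK 0 (Nat.zero_le _))
  have h1 : ‖∑ i ∈ range H, A i * (ee (((n + i + 1 : ℕ) : ℝ) * β) - ee (((n + i : ℕ) : ℝ) * β))‖ ≤
      H * (K * (2 * Real.pi * |β|)) := by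
    calc _ ≤ ∑ i ∈ range H, K * (2 * Real.pi * |β|) := by
          refine (norm_sum_le _ _).trans (sum_le_sum fun i hi => ?_)
          rw [norm_mul]
          refine mul_le_mul (hK i (mem_range.1 hi).le) ?_ (norm_nonneg _) hK0
          have h2 : ee (((n + i + 1 : ℕ) : ℝ) * β) - ee (((n + i : ℕ) : ℝ) * β) =
              ee (((n + i : ℕ) : ℝ) * β) * (ee β - 1) := by
            rw [mul_sub, mul_one, ← ee_add]
            congr 2
            push_cast
            ring
          rw [h2, norm_mul, norm_ee, one_mul, ← norm_neg, neg_sub]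
          have := Pool.Agent.H807R2.Dav.dd_le β
          unfold Pool.Agent.H807R2.Dav.dd at this
          exact this
      _ = _ := by rw [sum_const, card_range, nsmul_eq_mul]
  calc _ ≤ ‖A H * ee (((n + H : ℕ) : ℝ) * β)‖ + ‖∑ i ∈ range H, A i * (ee (((n + i + 1 : ℕ) : ℝ) * β) - ee (((n + i : ℕ) : ℝ) * β))‖ :=
        norm_sub_le _ _
    _ ≤ K + H * (K * (2 * Real.pi * |β|)) := by
        rw [norm_mul, norm_ee, mul_one]
        exact add_le_add (hK H le_rfl) h1
    _ = _ := by ring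

/-- natural representative of a class -/
lemma nat_rep (p : ℤ) (q : ℕ) (hq : 1 ≤ q) : ∃ (a : ℕ) (k : ℤ), p = (a : ℤ) + k * q := by
  have hq0 : (q : ℤ) ≠ 0 := by exact_mod_cast (by omega : q ≠ 0)
  refine ⟨(p % (q : ℤ)).toNat, p / (q : ℤ), ?_⟩
  rw [Int.toNat_of_nonneg (Int.emod_nonneg _ hq0)]
  have := Int.emod_add_mul_ediv p (q : ℤ)
  linarith

/-- **the sieve model with a frequency far from the rationals with small denominators** -/
theorem model (η : ℝ) (hη : 0 < η) : ∃ D B : ℕ, ∀ E : ℕ, ∃ X₀ : ℕ, ∀ n : ℕ, X₀ ≤ n → ∀ z : ℕ, Real.log n ^ B ≤ z →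
    (z : ℝ) ≤ Real.log n ^ E → ∀ H : ℕ, (n : ℝ) ^ (1 / 4 : ℝ) ≤ H → H ≤ n → ∀ θ : ℝ,
    (∀ d : ℕ, 1 ≤ d → d ≤ D → ∀ b : ℤ, Real.log n ^ B / H < |θ - b / d|) → ‖W (lamz z) θ n H‖ ≤ η * H := by
  obtain ⟨D, hD⟩ := tot_large (η / 2) (by positivity)
  obtain ⟨B, hB⟩ := t_LZA 1
  refine ⟨D, B, fun E => ?_⟩
  obtain ⟨X1, h1⟩ := hB E
  obtain ⟨X2, h2⟩ := Run7.h373.CR.lz B E (B + 2)
  obtain ⟨X3, h3⟩ := ev_L' (max (1 / η) (32 / η) + 2)
  obtain ⟨X4, h4⟩ := ev_log' (8 * (E + 1 + (B + 2))) 1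
  refine ⟨max (max X1 X2) (max (max X3 X4) 2), fun n hn z hzB hzE H hH1 hH2 θ hθ => ?_⟩
  have a1 := h1 n (le_trans (le_trans (le_max_left _ _) (le_max_left _ _)) hn)
  have a2 := h2 n (le_trans (le_trans (le_max_right _ _) (le_max_left _ _)) hn)
  have a3 := h3 n (le_trans (le_trans (le_trans (le_max_left _ _) (le_max_left _ _)) (le_max_right _ _)) hn)
  have a4 := h4 n (le_trans (le_trans (le_trans (le_max_right _ _) (le_max_left _ _)) (le_max_right _ _)) hn)
  have hn2 : 2 ≤ n := le_trans (le_trans (le_max_right _ _) (le_max_right _ _)) hn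
  have hnR : (2 : ℝ) ≤ n := by exact_mod_cast hn2
  have hn0 : (0 : ℝ) < n := by linarith
  set L : ℝ := Real.log n with hL
  have hL2 : 2 ≤ L := by
    have : 0 ≤ max (1 / η) (32 / η) := le_max_of_le_left (by positivity)
    linarith
  have hL0 : 0 < L := by linarith
  have hL1 : 1 ≤ L := by linarith
  have hLη : 1 / L ≤ η := by
    rw [div_le_iff₀ hL0]
    have h5 : 1 / η ≤ L := by linarith [le_max_left (1 / η) (32 / η)]
    rw [div_le_iff₀ hη] at h5
    linarith
  have hLη2 : 8 / L ≤ η / 2 := by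
    rw [div_le_iff₀ hL0]
    have h5 : 32 / η ≤ L := by linarith [le_max_right (1 / η) (32 / η)]
    rw [div_le_iff₀ hη] at h5
    linarith
  have hz1 : 1 ≤ z := by
    have : (1 : ℝ) ≤ z := (one_le_pow₀ hL1).trans hzB
    exact_mod_cast this
  -- powers of the logarithm against n^(1/8)
  have hpow : L ^ (E + 1 + (B + 2)) ≤ (n : ℝ) ^ (1 / 8 : ℝ) := by
    have h5 : (L ^ (E + 1 + (B + 2))) ^ 8 ≤ √(n : ℝ) := by
      rw [← pow_mul]
      rw [one_mul] at a4
      rw [mul_comm 8] at a4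
      exact a4
    have h6 : √(n : ℝ) ≤ n := by
      rw [Real.sqrt_le_left hn0.le]
      nlinarith
    have h7 : (L ^ (E + 1 + (B + 2))) ^ 8 ≤ ((n : ℝ) ^ (1 / 8 : ℝ)) ^ 8 := by
      have : ((n : ℝ) ^ (1 / 8 : ℝ)) ^ 8 = n := by
        rw [← Real.rpow_natCast, ← Real.rpow_mul hn0.le]
        norm_num
      rw [this]
      exact h5.trans h6
    exact le_of_pow_le_pow_left₀ (by norm_num) (by positivity) h7
  have h14 : (n : ℝ) ^ (1 / 4 : ℝ) = (n : ℝ) ^ (1 / 8 : ℝ) * (n : ℝ) ^ (1 / 8 : ℝ) := by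
    rw [← Real.rpow_add hn0]
    norm_num
  have h18 : (1 : ℝ) ≤ (n : ℝ) ^ (1 / 8 : ℝ) := Real.one_le_rpow (by linarith) (by norm_num)
  have hH8 : (n : ℝ) ^ (1 / 8 : ℝ) * L ^ (E + 1 + (B + 2)) ≤ H := by
    refine le_trans ?_ hH1
    rw [h14]
    gcongr
  have hH18 : (n : ℝ) ^ (1 / 8 : ℝ) ≤ H := by
    refine le_trans ?_ hH8
    have : (1 : ℝ) ≤ L ^ (E + 1 + (B + 2)) := one_le_pow₀ hL1
    nlinarith
  have hLB : 0 < L ^ B := by positivity
  have hHLB : L ^ B ≤ H := by
    refine le_trans ?_ hH8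
    have h5 : L ^ B ≤ L ^ (E + 1 + (B + 2)) := pow_le_pow_right₀ hL1 (by omega)
    nlinarith [pow_pos hL0 (E + 1 + (B + 2))]
  have hH0 : (0 : ℝ) < H := lt_of_lt_of_le hLB hHLB
  -- Dirichlet
  set Q : ℕ := ⌊(H : ℝ) / L ^ B⌋₊ with hQ
  have hQ1 : 1 ≤ Q := by
    rw [hQ, Nat.one_le_floor_iff, le_div_iff₀ hLB]
    linarith
  have hQup : (Q : ℝ) ≤ H / L ^ B := Nat.floor_le (by positivity)
  have hQlo : (H : ℝ) / L ^ B < Q + 1 := Nat.lt_floor_add_one _
  obtain ⟨ρ, hρ1, hρ2⟩ := Real.exists_rat_abs_sub_le_and_den_le θ hQ1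
  set q : ℕ := ρ.den with hq
  set p : ℤ := ρ.num with hp
  have hq1 : 1 ≤ q := ρ.pos
  have hqR : (1 : ℝ) ≤ q := by exact_mod_cast hq1
  have hqQ : (q : ℝ) ≤ Q := by exact_mod_cast hρ2
  have hcop : IsCoprime p (q : ℤ) := by
    rw [Int.isCoprime_iff_gcd_eq_one]
    have := ρ.reduced
    rwa [Nat.Coprime] at this
  have hρ : (ρ : ℝ) = p / q := by
    rw [hp, hq]
    exact_mod_cast (Rat.num_div_den ρ).symm
  rw [hρ] at hρ1
  have hβ : |θ - p / q| ≤ L ^ B / (H * q) := by
    refine hρ1.trans ?_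
    rw [div_le_div_iff₀ (by positivity) (by positivity), one_mul]
    rw [div_lt_iff₀ hLB] at hQlo
    nlinarith
  have happ : App θ p q := by
    refine ⟨hq1, hcop, hρ1.trans ?_⟩
    apply one_div_le_one_div_of_le (by positivity)
    nlinarith
  rcases le_or_gt (L ^ B) (q : ℝ) with hcase | hcase
  · -- minor arcs
    have hqH : (q : ℝ) * L ^ B ≤ H := by
      have := hqQ.trans hQup
      rwa [le_div_iff₀ hLB] at this
    have h5 := a1 z hz1 hzE θ p q happ H hH18 hH2 hcase hqH n (by omega)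
    rw [pow_one] at h5
    refine h5.trans ?_
    rw [div_eq_mul_one_div, mul_comm]
    exact mul_le_mul_of_nonneg_right hLη hH0.le
  · -- major arcs
    have hDq : D < q := by
      by_contra hcon
      push Not at hcon
      have h5 := hθ q hq1 hcon p
      have h6 : L ^ B / (H * q) ≤ L ^ B / H := by
        apply div_le_div_of_nonneg_left hLB.le hH0
        nlinarith
      linarith
    have htot := hD q hDq
    have hqz : q ≤ z := by
      have : (q : ℝ) ≤ z := hcase.le.trans hzB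
      exact_mod_cast this
    obtain ⟨a, k, hak⟩ := nat_rep p q hq1
    have hacop : a.Coprime q := by
      have h5 : IsCoprime (a : ℤ) (q : ℤ) := by
        have h6 : (a : ℤ) = p + (-k) * q := by rw [hak]; ring
        rw [h6]
        exact IsCoprime.add_mul_right_left hcop (-k)
      exact_mod_cast Nat.isCoprime_iff_coprime.1 h5
    have hcc := (cc_bound q a hq1 hacop).trans htot
    set β : ℝ := θ - p / q with hβdef
    -- the phases
    have hphase : ∀ m : ℕ, ee ((m : ℝ) * θ) = Pool.Agent.H469R2.NK.e ((a : ℝ) * m / q) * ee ((m : ℝ) * β) := by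
      intro m
      have hq0 : (q : ℝ) ≠ 0 := by positivity
      rw [eNK, ← ee_add]
      have h5 : (m : ℝ) * θ = ((a : ℝ) * m / q + m * β) + ((m * k : ℤ) : ℝ) := by
        rw [hβdef, hak]
        push_cast
        field_simp
        ring
      rw [h5, ee_add, ee_int, mul_one]
    set f : ℕ → ℂ := fun m => (lamz z m : ℂ) * Pool.Agent.H469R2.NK.e ((a : ℝ) * m / q) - cc q a with hf
    have hW : W (lamz z) θ n H = ∑ m ∈ Ioc n (n + H), f m * ee ((m : ℝ) * β) +
        cc q a * ∑ m ∈ Ioc n (n + H), ee ((m : ℝ) * β) := by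
      unfold W
      rw [mul_sum, ← sum_add_distrib]
      refine sum_congr rfl fun m _ => ?_
      rw [hphase m]
      simp only [hf]
      ring
    have hccn : ‖cc q a‖ ≤ 1 := by
      refine (cc_bound q a hq1 hacop).trans ?_
      have : (1 : ℝ) ≤ Nat.totient q := by exact_mod_cast Nat.totient_pos.2 hq1
      rw [div_le_one (by linarith)]
      exact this
    have hK : ∀ t ≤ H, ‖∑ m ∈ Ioc n (n + t), f m‖ ≤ H / L ^ (B + 1) := by
      intro t ht
      have hcard : ((Ioc n (n + t)).card : ℂ) = t := by simp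
      rcases le_or_gt ((n : ℝ) ^ (1 / 8 : ℝ)) (t : ℝ) with h5 | h5
      · have h6 := a2 z q hq1 hcase.le hqz hzE a n t h5
        have h7 : ∑ m ∈ Ioc n (n + t), f m = ∑ m ∈ Ioc n (n + t), (lamz z m : ℂ) * Pool.Agent.H469R2.NK.e ((a : ℝ) * m / q) - cc q a * t := by
          simp only [hf]
          rw [sum_sub_distrib, sum_const, nsmul_eq_mul, hcard]
          ring
        rw [h7]
        refine h6.trans ?_
        have htH : (t : ℝ) ≤ H := by exact_mod_cast ht
        apply div_le_div₀ hH0.le htH (by positivity)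
        exact pow_le_pow_right₀ hL1 (by omega)
      · have h6 : ‖∑ m ∈ Ioc n (n + t), f m‖ ≤ t * (2 * z) := by
          calc _ ≤ ∑ m ∈ Ioc n (n + t), (2 * (z : ℝ)) := by
                refine (norm_sum_le _ _).trans (sum_le_sum fun m _ => ?_)
                simp only [hf]
                refine (norm_sub_le _ _).trans ?_
                rw [norm_mul, Pool.Agent.H469R2.NK.norm_e, mul_one, Complex.norm_real, Real.norm_eq_abs,
                  abs_of_nonneg (lamz_nonneg z m)]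
                have h7 : lamz z m ≤ z := by
                  have h8 : lamz z m ≤ (Vz z)⁻¹ := by
                    unfold lamz
                    split_ifs
                    · exact le_rfl
                    · exact (inv_pos.2 (Vz_pos z)).le
                  exact h8.trans (Vz_inv_le z hz1)
                have h8 : (1 : ℝ) ≤ z := by exact_mod_cast hz1
                linarith
            _ = _ := by
                rw [sum_const, nsmul_eq_mul]
                simp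
        refine h6.trans ?_
        rw [le_div_iff₀ (by positivity)]
        calc (t : ℝ) * (2 * z) * L ^ (B + 1) ≤ (n : ℝ) ^ (1 / 8 : ℝ) * (L * L ^ E) * L ^ (B + 1) := by
              gcongr
          _ ≤ (n : ℝ) ^ (1 / 8 : ℝ) * L ^ (E + 1 + (B + 2)) := by
              rw [mul_assoc]
              refine mul_le_mul_of_nonneg_left ?_ (by positivity)
              calc L * L ^ E * L ^ (B + 1) = L ^ (E + B + 2) := by ring
                _ ≤ _ := pow_le_pow_right₀ hL1 (by omega)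
          _ ≤ H := hH8
    have h5 := abel f β n H _ hK
    have h6 : ‖cc q a * ∑ m ∈ Ioc n (n + H), ee ((m : ℝ) * β)‖ ≤ η / 2 * H := by
      rw [norm_mul]
      have h7 : ‖∑ m ∈ Ioc n (n + H), ee ((m : ℝ) * β)‖ ≤ H := by
        calc _ ≤ ∑ m ∈ Ioc n (n + H), (1 : ℝ) := by
              refine (norm_sum_le _ _).trans (sum_le_sum fun m _ => ?_)
              rw [norm_ee]
          _ = H := by simp
      exact mul_le_mul hcc h7 (norm_nonneg _) (by positivity)
    have h7 : (H : ℝ) / L ^ (B + 1) * (1 + 2 * Real.pi * |β| * H) ≤ η / 2 * H := by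
      have h8 : |β| * H ≤ L ^ B := by
        calc |β| * H ≤ L ^ B / (H * q) * H := by gcongr
          _ = L ^ B / q := by field_simp
          _ ≤ L ^ B := div_le_self hLB.le hqR
      have h9 : 1 ≤ L ^ B := one_le_pow₀ hL1
      have h10 : 1 + 2 * Real.pi * |β| * H ≤ 8 * L ^ B := by
        have := Real.pi_lt_d2
        have h11 : 2 * Real.pi * |β| * H = 2 * Real.pi * (|β| * H) := by ring
        rw [h11]
        have h12 : 2 * Real.pi * (|β| * H) ≤ 6.3 * (|β| * H) := by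
          apply mul_le_mul_of_nonneg_right (by linarith)
          positivity
        nlinarith
      calc _ ≤ (H : ℝ) / L ^ (B + 1) * (8 * L ^ B) := by gcongr
        _ = 8 / L * H := by
            rw [pow_succ]
            field_simp
        _ ≤ _ := mul_le_mul_of_nonneg_right hLη2 hH0.le
    rw [hW]
    refine (norm_add_le _ _).trans ?_
    linarith [h5.trans h7]

/-- the sieve model without frequency -/
theorem model0 (η : ℝ) (hη : 0 < η) : ∀ E : ℕ, ∃ X₀ : ℕ, ∀ n : ℕ, X₀ ≤ n → ∀ z : ℕ, 1 ≤ z →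
    (z : ℝ) ≤ Real.log n ^ E → ∀ H : ℕ, (n : ℝ) ^ (1 / 4 : ℝ) ≤ H → ‖W (lamz z) 0 n H - H‖ ≤ η * H := by
  intro E
  obtain ⟨X2, h2⟩ := Run7.h373.CR.lz 0 E 1
  obtain ⟨X3, h3⟩ := ev_L' (1 / η + 1)
  refine ⟨max (max X2 X3) 1, fun n hn z hz1 hzE H hH1 => ?_⟩
  have a2 := h2 n (le_trans (le_trans (le_max_left _ _) (le_max_left _ _)) hn)
  have a3 := h3 n (le_trans (le_trans (le_max_right _ _) (le_max_left _ _)) hn)
  have hn1 : 1 ≤ n := le_trans (le_max_right _ _) hn
  have hnR : (1 : ℝ) ≤ n := by exact_mod_cast hn1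
  have hL0 : 0 < Real.log n := by
    have : 0 < 1 / η := by positivity
    linarith
  have hH18 : (n : ℝ) ^ (1 / 8 : ℝ) ≤ H := by
    refine le_trans ?_ hH1
    exact Real.rpow_le_rpow_of_exponent_le hnR (by norm_num)
  have h4 := a2 z 1 le_rfl (by simp) hz1 hzE 0 n H hH18
  have h5 : cc 1 0 = 1 := by
    unfold cc
    have : (range 1).filter (fun b => b.Coprime 1) = {0} := by decide
    rw [this]
    simp [eNK, ee_zero]
  have h6 : W (lamz z) 0 n H = ∑ m ∈ Ioc n (n + H), (lamz z m : ℂ) * Pool.Agent.H469R2.NK.e (((0 : ℕ) : ℝ) * m / (1 : ℕ)) := by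
    unfold W
    refine sum_congr rfl fun m _ => ?_
    rw [eNK]
    simp
  rw [h6]
  rw [h5, one_mul, pow_one] at h4
  refine h4.trans ?_
  rw [div_eq_mul_one_div, mul_comm]
  refine mul_le_mul_of_nonneg_right ?_ (Nat.cast_nonneg _)
  rw [div_le_iff₀ hL0]
  have h7 : 1 / η ≤ Real.log n := by linarith
  rw [div_le_iff₀ hη] at h7
  linarith

end Pool.Agent.Run7.h609.MK
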