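import Mathlib
import Pool.Agent.V11226.ETN.Maj

/-!
# A quantitative Weyl criterion for boxes in the torus (finitely many weighted points)
-/

set_option autoImplicit false
set_option maxHeartbeats 4000000

namespace Pool.Agent.Run7.h609.MK

open Finset
open Pool.Agent.V11226.ETN (e P exists_majorant norm_e e_add e_sum e_zero)

/-- a product of trigonometric polynomials -/
lemma expand {r : ℕ} (c : Fin r → ℤ → ℂ) (M : ℕ) (x : Fin r → ℝ) :
    ∏ j, P (c j) M (x j) = ∑ h ∈ Fintype.piFinset (fun _ : Fin r => Icc (-(M : ℤ)) M),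
      (∏ j, c j (h j)) * e (∑ j, (h j : ℝ) * x j) := by
  unfold P
  rw [Finset.prod_univ_sum]
  refine sum_congr rfl fun h _ => ?_
  rw [prod_mul_distrib, e_sum]

lemma prod_diff {ι : Type*} (s : Finset ι) (a b : ι → ℝ) (ha : ∀ i ∈ s, 0 ≤ a i ∧ a i ≤ 1) (hb : ∀ i ∈ s, 0 ≤ b i ∧ b i ≤ 1) :
    |∏ i ∈ s, a i - ∏ i ∈ s, b i| ≤ ∑ i ∈ s, |a i - b i| := by
  classical
  induction s using Finset.induction_on with
  | empty => simp
  | insert i s hi ih =>
    rw [prod_insert hi, prod_insert hi, sum_insert hi]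
    have h1 := ih (fun j hj => ha j (mem_insert_of_mem hj)) (fun j hj => hb j (mem_insert_of_mem hj))
    have h2 := ha i (mem_insert_self _ _)
    have h3 := hb i (mem_insert_self _ _)
    have h4 : 0 ≤ ∏ j ∈ s, b j := prod_nonneg fun j hj => (hb j (mem_insert_of_mem hj)).1
    have h5 : ∏ j ∈ s, b j ≤ 1 := prod_le_one (fun j hj => (hb j (mem_insert_of_mem hj)).1)
      fun j hj => (hb j (mem_insert_of_mem hj)).2
    have h6 : a i * ∏ j ∈ s, a j - b i * ∏ j ∈ s, b j =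
        a i * (∏ j ∈ s, a j - ∏ j ∈ s, b j) + (a i - b i) * ∏ j ∈ s, b j := by ring
    rw [h6]
    refine (abs_add_le _ _).trans ?_
    rw [abs_mul, abs_mul, abs_of_nonneg h2.1, abs_of_nonneg h4]
    have h7 : a i * |∏ j ∈ s, a j - ∏ j ∈ s, b j| ≤ 1 * |∏ j ∈ s, a j - ∏ j ∈ s, b j| :=
      mul_le_mul_of_nonneg_right h2.2 (abs_nonneg _)
    have h8 : |a i - b i| * ∏ j ∈ s, b j ≤ |a i - b i| * 1 :=
      mul_le_mul_of_nonneg_left h5 (abs_nonneg _)
    linarith

/-- the upper bound for a cell -/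
lemma cell {r : ℕ} (M : ℕ) (c : Fin r → ℤ → ℂ) (f : Fin r → ℝ → ℝ) (μ : Fin r → ℝ)
    (hf : ∀ j t, ((f j t : ℝ) : ℂ) = P (c j) M t) (hc : ∀ j, c j 0 = (μ j : ℂ)) (hμ : ∀ j, 0 ≤ μ j)
    (S : ℝ) (hS : ∀ j, ∀ h ∈ Icc (-(M : ℤ)) M, ‖c j h‖ ≤ S) (hS0 : 0 ≤ S)
    {ι : Type*} (s : Finset ι) (wt : ι → ℝ) (x : ι → Fin r → ℝ) (Z δ : ℝ) (hδZ : 0 ≤ δ * Z) (hZ : |∑ i ∈ s, wt i - Z| ≤ δ * Z)
    (hh : ∀ h : Fin r → ℤ, h ≠ 0 → (∀ j, |h j| ≤ M) → ‖∑ i ∈ s, (wt i : ℂ) * e (∑ j, (h j : ℝ) * x i j)‖ ≤ δ * Z) :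
    ∑ i ∈ s, wt i * ∏ j, f j (x i j) ≤ (∏ j, μ j) * (Z + δ * Z) + ((2 * M + 1 : ℕ) * S) ^ r * (δ * Z) := by
  classical
  set V := Fintype.piFinset (fun _ : Fin r => Icc (-(M : ℤ)) M) with hV
  have h0V : (0 : Fin r → ℤ) ∈ V := by
    rw [hV, Fintype.mem_piFinset]
    intro j
    rw [mem_Icc]
    simp
  have h1 : ((∑ i ∈ s, wt i * ∏ j, f j (x i j) : ℝ) : ℂ) =
      ∑ h ∈ V, (∏ j, c j (h j)) * ∑ i ∈ s, (wt i : ℂ) * e (∑ j, (h j : ℝ) * x i j) := by
    push_cast
    simp_rw [hf, expand, mul_sum]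
    rw [sum_comm]
    refine sum_congr rfl fun h _ => sum_congr rfl fun i _ => by ring
  rw [← add_sum_erase V _ h0V] at h1
  have h2 : (∏ j, c j ((0 : Fin r → ℤ) j)) * ∑ i ∈ s, (wt i : ℂ) * e (∑ j, (((0 : Fin r → ℤ) j : ℤ) : ℝ) * x i j) =
      (((∏ j, μ j) * ∑ i ∈ s, wt i : ℝ) : ℂ) := by
    push_cast
    congr 1
    · exact prod_congr rfl fun j _ => hc j
    · refine sum_congr rfl fun i _ => ?_
      simp
  rw [h2] at h1
  have h3 : (∑ i ∈ s, wt i * ∏ j, f j (x i j)) - (∏ j, μ j) * ∑ i ∈ s, wt i ≤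
      ‖∑ h ∈ V.erase 0, (∏ j, c j (h j)) * ∑ i ∈ s, (wt i : ℂ) * e (∑ j, (h j : ℝ) * x i j)‖ := by
    have : (((∑ i ∈ s, wt i * ∏ j, f j (x i j)) - (∏ j, μ j) * ∑ i ∈ s, wt i : ℝ) : ℂ) =
        ∑ h ∈ V.erase 0, (∏ j, c j (h j)) * ∑ i ∈ s, (wt i : ℂ) * e (∑ j, (h j : ℝ) * x i j) := by
      rw [Complex.ofReal_sub, h1]
      ring
    rw [← this, Complex.norm_real]
    exact le_abs_self _
  have h4 : ‖∑ h ∈ V.erase 0, (∏ j, c j (h j)) * ∑ i ∈ s, (wt i : ℂ) * e (∑ j, (h j : ℝ) * x i j)‖ ≤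
      ((2 * M + 1 : ℕ) * S) ^ r * (δ * Z) := by
    calc _ ≤ ∑ h ∈ V.erase 0, S ^ r * (δ * Z) := by
          refine (norm_sum_le _ _).trans (sum_le_sum fun h hh' => ?_)
          rw [mem_erase] at hh'
          have g0 : ∀ j, h j ∈ Icc (-(M : ℤ)) M := fun j => by
            have := hh'.2
            rw [hV, Fintype.mem_piFinset] at this
            exact this j
          rw [norm_mul, norm_prod]
          have g1 : ∏ j, ‖c j (h j)‖ ≤ S ^ r := by
            calc ∏ j, ‖c j (h j)‖ ≤ ∏ _j : Fin r, S := prod_le_prod (fun j _ => norm_nonneg _) fun j _ => hS j _ (g0 j)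
              _ = S ^ r := by simp
          have g2 := hh h hh'.1 (fun j => by
            have := mem_Icc.1 (g0 j)
            rw [abs_le]
            exact this)
          exact mul_le_mul g1 g2 (norm_nonneg _) (by positivity)
      _ = ((V.erase 0).card : ℝ) * (S ^ r * (δ * Z)) := by rw [sum_const, nsmul_eq_mul]
      _ ≤ ((2 * M + 1 : ℕ) : ℝ) ^ r * (S ^ r * (δ * Z)) := by
          refine mul_le_mul_of_nonneg_right ?_ (by positivity)
          have g1 : (V.erase 0).card ≤ V.card := card_le_card (erase_subset _ _)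
          have g2 : V.card = (2 * M + 1) ^ r := by
            rw [hV, Fintype.card_piFinset]
            simp only [Int.card_Icc, prod_const, card_univ, Fintype.card_fin]
            congr 1
            omega
          rw [g2] at g1
          exact_mod_cast g1
      _ = _ := by rw [mul_pow]; ring
  have h5 : (∏ j, μ j) * ∑ i ∈ s, wt i ≤ (∏ j, μ j) * (Z + δ * Z) := by
    refine mul_le_mul_of_nonneg_left ?_ (prod_nonneg fun j _ => hμ j)
    have := (abs_le.1 hZ).2
    linarith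
  linarith

/-- **Weyl's criterion**, quantitative, for boxes modulo one -/
theorem weyl (r : ℕ) (ε : ℝ) (hε : 0 < ε) : ∃ (M : ℕ) (δ : ℝ), 0 < δ ∧ ∀ {ι : Type} (s : Finset ι) (wt : ι → ℝ)
    (x : ι → Fin r → ℝ) (Z : ℝ), (∀ i ∈ s, 0 ≤ wt i) → 0 ≤ Z → |∑ i ∈ s, wt i - Z| ≤ δ * Z →
    (∀ h : Fin r → ℤ, h ≠ 0 → (∀ j, |h j| ≤ M) → ‖∑ i ∈ s, (wt i : ℂ) * e (∑ j, (h j : ℝ) * x i j)‖ ≤ δ * Z) →
    ∀ u v : Fin r → ℝ, (∀ j, u j ≤ v j) → (∀ j, v j ≤ u j + 1) →
    |∑ i ∈ s.filter (fun i => ∀ j, Int.fract (x i j - u j) < v j - u j), wt i - (∏ j, (v j - u j)) * Z| ≤ ε * Z := by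
  classical
  -- the parameters
  obtain ⟨q0, hq0⟩ := exists_nat_gt (4 * r / ε)
  set q : ℕ := q0 + 1 with hqdef
  have hq : 0 < q := by omega
  have hqR : (0 : ℝ) < q := by exact_mod_cast hq
  have hrq : (r : ℝ) / q ≤ ε / 4 := by
    have h1 : 4 * r / ε < q := by
      rw [hqdef]; push_cast; linarith
    rw [div_lt_iff₀ hε] at h1
    rw [div_le_div_iff₀ hqR (by norm_num)]
    nlinarith
  set κ : ℝ := min 1 (ε / 4 / (q : ℝ) ^ r) with hκdef
  have hκ0 : 0 < κ := lt_min one_pos (by positivity)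
  have hκ1 : κ ≤ 1 := min_le_left _ _
  have hκq : (q : ℝ) ^ r * κ ≤ ε / 4 := by
    have h1 : κ ≤ ε / 4 / (q : ℝ) ^ r := min_le_right _ _
    rw [le_div_iff₀ (by positivity)] at h1
    linarith
  obtain ⟨η, hη0, hη⟩ : ∃ η : ℝ, 0 < η ∧ (1 / (q : ℝ) + η) ^ r ≤ 1 / (q : ℝ) ^ r + κ / 2 := by
    have hcont : Filter.Tendsto (fun η : ℝ => (1 / (q : ℝ) + η) ^ r) (nhdsWithin 0 (Set.Ioi 0)) (nhds (1 / (q : ℝ) ^ r)) := by
      have h1 : Continuous (fun η : ℝ => (1 / (q : ℝ) + η) ^ r) := by fun_prop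
      have h2 := (h1.tendsto 0).mono_left (nhdsWithin_le_nhds (s := Set.Ioi (0 : ℝ)))
      simpa using h2
    have h1 := hcont.eventually (ge_mem_nhds (show 1 / (q : ℝ) ^ r < 1 / (q : ℝ) ^ r + κ / 2 by linarith))
    have h2 := h1.and self_mem_nhdsWithin
    obtain ⟨η, h3, h4⟩ := h2.exists
    exact ⟨η, h4, h3⟩
  obtain ⟨M, hM⟩ := exists_majorant q hq η hη0
  choose c f μ Yb hf hf0 _ hc hμ0 hμ1 hf1 using hM
  set S : ℝ := ∑ w ∈ range q, ∑ h ∈ Icc (-(M : ℤ)) M, ‖c w h‖ with hSdef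
  have hS0 : 0 ≤ S := sum_nonneg fun _ _ => sum_nonneg fun _ _ => norm_nonneg _
  have hS : ∀ w ∈ range q, ∀ h ∈ Icc (-(M : ℤ)) M, ‖c w h‖ ≤ S := by
    intro w hw h hh
    refine (single_le_sum (f := fun h => ‖c w h‖) (fun _ _ => norm_nonneg _) hh).trans ?_
    exact single_le_sum (f := fun w => ∑ h ∈ Icc (-(M : ℤ)) M, ‖c w h‖)
      (fun _ _ => sum_nonneg fun _ _ => norm_nonneg _) hw
  set B : ℝ := 2 + ((2 * M + 1 : ℕ) * S) ^ r with hBdef
  have hB0 : 0 < B := by positivity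
  set δ : ℝ := min (ε / 4) (κ / 2 / B) with hδdef
  have hδ0 : 0 < δ := lt_min (by positivity) (by positivity)
  have hδε : δ ≤ ε / 4 := min_le_left _ _
  have hδB : δ * B ≤ κ / 2 := by
    have h1 : δ ≤ κ / 2 / B := min_le_right _ _
    rwa [le_div_iff₀ hB0] at h1
  refine ⟨M, δ, hδ0, ?_⟩
  intro ι s wt x Z hwt hZ0 hZ hh u v huv hvu
  set y : ι → Fin r → ℝ := fun i j => x i j - u j with hydef
  have hδZ : 0 ≤ δ * Z := by positivity
  have hy : ∀ h : Fin r → ℤ, h ≠ 0 → (∀ j, |h j| ≤ M) → ‖∑ i ∈ s, (wt i : ℂ) * e (∑ j, (h j : ℝ) * y i j)‖ ≤ δ * Z := by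
    intro h h0 hM'
    have h1 : ∑ i ∈ s, (wt i : ℂ) * e (∑ j, (h j : ℝ) * y i j) =
        e (- ∑ j, (h j : ℝ) * u j) * ∑ i ∈ s, (wt i : ℂ) * e (∑ j, (h j : ℝ) * x i j) := by
      rw [mul_sum]
      refine sum_congr rfl fun i _ => ?_
      have h2 : ∑ j, (h j : ℝ) * y i j = (- ∑ j, (h j : ℝ) * u j) + ∑ j, (h j : ℝ) * x i j := by
        rw [← sum_neg_distrib, ← sum_add_distrib]
        refine sum_congr rfl fun j _ => ?_
        simp only [hydef]
        ring
      rw [h2, e_add]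
      ring
    rw [h1, norm_mul, norm_e, one_mul]
    exact hh h h0 hM'
  -- the cells
  set idx : ι → Fin r → ℕ := fun i j => ⌊(q : ℝ) * Int.fract (y i j)⌋₊ with hidx
  have hidxq : ∀ i j, idx i j < q := by
    intro i j
    simp only [hidx]
    rw [Nat.floor_lt (mul_nonneg hqR.le (Int.fract_nonneg _))]
    have := Int.fract_lt_one (y i j)
    nlinarith
  have hcell : ∀ w : Fin r → ℕ, (∀ j, w j < q) →
      ∑ i ∈ s.filter (fun i => idx i = w), wt i ≤ (1 / (q : ℝ) ^ r + κ) * Z := by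
    intro w hw
    have h1 : ∑ i ∈ s.filter (fun i => idx i = w), wt i ≤ ∑ i ∈ s, wt i * ∏ j, f (w j) (y i j) := by
      rw [sum_filter]
      refine sum_le_sum fun i hi => ?_
      have g0 : 0 ≤ ∏ j, f (w j) (y i j) := prod_nonneg fun j _ => hf0 _ _
      split_ifs with h2
      · have g1 : 1 ≤ ∏ j, f (w j) (y i j) := by
          have : ∀ j, 1 ≤ f (w j) (y i j) := by
            intro j
            apply hf1
            · rw [← h2]
              exact Nat.floor_le (mul_nonneg hqR.le (Int.fract_nonneg _))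
            · rw [← h2]
              exact Nat.lt_floor_add_one _
          calc (1 : ℝ) = ∏ _j : Fin r, (1 : ℝ) := by simp
            _ ≤ _ := prod_le_prod (fun _ _ => zero_le_one) fun j _ => this j
        have := hwt i hi
        nlinarith
      · exact mul_nonneg (hwt i hi) g0
    have h2 := cell M (fun j => c (w j)) (fun j => f (w j)) (fun j => μ (w j)) (fun j t => hf (w j) t)
      (fun j => hc (w j)) (fun j => hμ0 (w j)) S (fun j h hh' => hS (w j) (mem_range.2 (hw j)) h hh') hS0 s wt y Z δ hδZ hZ hy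
    have h3 : ∏ j, μ (w j) ≤ 1 / (q : ℝ) ^ r + κ / 2 := by
      refine le_trans ?_ hη
      calc ∏ j, μ (w j) ≤ ∏ _j : Fin r, (1 / (q : ℝ) + η) := prod_le_prod (fun j _ => hμ0 _) fun j _ => hμ1 _
        _ = _ := by simp
    have h4 : (1 : ℝ) / (q : ℝ) ^ r ≤ 1 := by
      rw [div_le_one (by positivity)]
      apply one_le_pow₀
      exact_mod_cast hq
    refine h1.trans (h2.trans ?_)
    have h5 : (∏ j, μ (w j)) * (Z + δ * Z) ≤ (1 / (q : ℝ) ^ r + κ / 2) * (Z + δ * Z) :=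
      mul_le_mul_of_nonneg_right h3 (by positivity)
    have h6 : (1 / (q : ℝ) ^ r + κ / 2) * (δ * Z) ≤ 2 * (δ * Z) := mul_le_mul_of_nonneg_right (by linarith) hδZ
    have h7 : (δ * B) * Z ≤ κ / 2 * Z := mul_le_mul_of_nonneg_right hδB hZ0
    rw [hBdef] at h7
    nlinarith
  have hb0 : ∀ j, 0 ≤ v j - u j := fun j => by linarith [huv j]
  have hb1 : ∀ j, v j - u j ≤ 1 := fun j => by linarith [hvu j]
  -- sums over the cells of a box
  have hbox : ∀ m : Fin r → ℕ, (∀ j, m j ≤ q) →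
      ∑ i ∈ s.filter (fun i => idx i ∈ Fintype.piFinset (fun j => range (m j))), wt i =
        ∑ w ∈ Fintype.piFinset (fun j => range (m j)), ∑ i ∈ s.filter (fun i => idx i = w), wt i := by
    intro m hm
    rw [← sum_fiberwise_of_maps_to (s := s.filter (fun i => idx i ∈ Fintype.piFinset (fun j => range (m j))))
      (t := Fintype.piFinset (fun j => range (m j))) (g := idx) (fun i hi => (mem_filter.1 hi).2)]
    refine sum_congr rfl fun w hw => ?_
    rw [filter_filter]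
    refine sum_congr ?_ fun _ _ => rfl
    refine filter_congr fun i _ => ?_
    constructor
    · rintro ⟨_, h⟩; exact h
    · intro h; exact ⟨h ▸ hw, h⟩
  have hcard : ∀ m : Fin r → ℕ, ((Fintype.piFinset (fun j => range (m j))).card : ℝ) = ∏ j, (m j : ℝ) := by
    intro m
    rw [Fintype.card_piFinset]
    push_cast
    simp
  have hpow : ∏ _j : Fin r, (q : ℝ) = (q : ℝ) ^ r := by simp
  have hA : ∀ m : Fin r → ℕ, ∏ j, (m j : ℝ) * (1 / (q : ℝ)) = (∏ j, (m j : ℝ)) * (1 / (q : ℝ) ^ r) := by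
    intro m
    rw [prod_mul_distrib]
    simp
  have hsum1 : ∑ _j : Fin r, 1 / (q : ℝ) ≤ ε / 4 := by
    simp only [sum_const, card_univ, Fintype.card_fin, nsmul_eq_mul]
    rw [mul_one_div]
    exact hrq
  rw [abs_le]
  constructor
  · -- lower bound
    set m : Fin r → ℕ := fun j => ⌊(q : ℝ) * (v j - u j)⌋₊ with hm
    have hmq : ∀ j, m j ≤ q := by
      intro j
      have h1 : (m j : ℝ) ≤ q * (v j - u j) := Nat.floor_le (mul_nonneg hqR.le (hb0 j))
      have h2 : (m j : ℝ) ≤ q := by nlinarith [hb1 j]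
      exact_mod_cast h2
    have h1 : ∑ i ∈ s.filter (fun i => idx i ∈ Fintype.piFinset (fun j => range (m j))), wt i ≤
        ∑ i ∈ s.filter (fun i => ∀ j, Int.fract (x i j - u j) < v j - u j), wt i := by
      apply sum_le_sum_of_subset_of_nonneg
      · intro i hi
        rw [mem_filter] at hi ⊢
        refine ⟨hi.1, fun j => ?_⟩
        have h2 := hi.2
        rw [Fintype.mem_piFinset] at h2
        have h3 := mem_range.1 (h2 j)
        have h4 : (q : ℝ) * Int.fract (y i j) < idx i j + 1 := Nat.lt_floor_add_one _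
        have h5 : ((idx i j : ℕ) : ℝ) + 1 ≤ m j := by exact_mod_cast h3
        have h6 : (m j : ℝ) ≤ q * (v j - u j) := Nat.floor_le (mul_nonneg hqR.le (hb0 j))
        have h7 : (q : ℝ) * Int.fract (y i j) < q * (v j - u j) := by linarith
        exact lt_of_mul_lt_mul_left h7 hqR.le
      · intro i hi _
        exact hwt i (mem_filter.1 hi).1
    have h2 : ∑ i ∈ s, wt i = ∑ w ∈ Fintype.piFinset (fun _ : Fin r => range q), ∑ i ∈ s.filter (fun i => idx i = w), wt i := by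
      rw [← hbox (fun _ => q) (fun _ => le_rfl)]
      refine sum_congr ?_ fun _ _ => rfl
      rw [filter_true_of_mem]
      intro i _
      rw [Fintype.mem_piFinset]
      exact fun j => mem_range.2 (hidxq i j)
    have hsub : Fintype.piFinset (fun j => range (m j)) ⊆ Fintype.piFinset (fun _ : Fin r => range q) :=
      Fintype.piFinset_subset _ _ fun j => range_subset_range.2 (hmq j)
    rw [hbox m hmq] at h1
    rw [← sum_sdiff hsub] at h2
    have h3 : ∑ w ∈ Fintype.piFinset (fun _ : Fin r => range q) \ Fintype.piFinset (fun j => range (m j)),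
        ∑ i ∈ s.filter (fun i => idx i = w), wt i ≤ ((q : ℝ) ^ r - ∏ j, (m j : ℝ)) * ((1 / (q : ℝ) ^ r + κ) * Z) := by
      calc _ ≤ ∑ w ∈ Fintype.piFinset (fun _ : Fin r => range q) \ Fintype.piFinset (fun j => range (m j)),
            (1 / (q : ℝ) ^ r + κ) * Z := by
            refine sum_le_sum fun w hw => hcell w ?_
            rw [mem_sdiff, Fintype.mem_piFinset] at hw
            exact fun j => mem_range.1 (hw.1 j)
        _ = _ := by
            rw [sum_const, nsmul_eq_mul, cast_card_sdiff hsub, hcard m, hcard (fun _ => q), hpow]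
    have h4 := (abs_le.1 hZ).1
    have h5 : 0 ≤ ∏ j, (m j : ℝ) := prod_nonneg fun _ _ => Nat.cast_nonneg _
    have h6 : (q : ℝ) ^ r * (1 / (q : ℝ) ^ r) = 1 := by
      rw [mul_one_div, div_self]; positivity
    have h7 := prod_diff (univ : Finset (Fin r)) (fun j => v j - u j) (fun j => (m j : ℝ) * (1 / (q : ℝ)))
      (fun j _ => ⟨hb0 j, hb1 j⟩) (fun j _ => ⟨by positivity, by
        rw [mul_one_div, div_le_one hqR]
        exact_mod_cast hmq j⟩)
    have h8 : ∑ j, |(v j - u j) - (m j : ℝ) * (1 / (q : ℝ))| ≤ ∑ _j : Fin r, 1 / (q : ℝ) := by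
      refine sum_le_sum fun j _ => ?_
      have g1 : (m j : ℝ) ≤ q * (v j - u j) := Nat.floor_le (mul_nonneg hqR.le (hb0 j))
      have g2 : q * (v j - u j) < m j + 1 := Nat.lt_floor_add_one _
      have g3 : (v j - u j) - (m j : ℝ) * (1 / (q : ℝ)) = (q * (v j - u j) - m j) / q := by
        field_simp
      rw [g3, abs_of_nonneg (div_nonneg (by linarith) hqR.le)]
      exact div_le_div_of_nonneg_right (by linarith) hqR.le
    rw [hA m] at h7
    have h9 := (abs_le.1 (h7.trans (h8.trans hsum1))).2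
    set X := ∏ j, (m j : ℝ) with hX
    set Pb := ∏ j, (v j - u j) with hPb
    have h10 : (Pb - X * (1 / (q : ℝ) ^ r)) * Z ≤ ε / 4 * Z := mul_le_mul_of_nonneg_right h9 hZ0
    have h11 : (q : ℝ) ^ r * κ * Z ≤ ε / 4 * Z := mul_le_mul_of_nonneg_right hκq hZ0
    have h12 : 0 ≤ X * (κ * Z) := by positivity
    have h13 : δ * Z ≤ ε / 4 * Z := mul_le_mul_of_nonneg_right hδε hZ0
    have h14 : ((q : ℝ) ^ r - X) * ((1 / (q : ℝ) ^ r + κ) * Z) =
        ((q : ℝ) ^ r * (1 / (q : ℝ) ^ r)) * Z + (q : ℝ) ^ r * κ * Z - X * (1 / (q : ℝ) ^ r) * Z - X * (κ * Z) := by ring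
    rw [h14, h6] at h3
    nlinarith
  · -- upper bound
    set m : Fin r → ℕ := fun j => ⌈(q : ℝ) * (v j - u j)⌉₊ with hm
    have hmq : ∀ j, m j ≤ q := by
      intro j
      apply Nat.ceil_le.2
      nlinarith [hb1 j]
    have h1 : ∑ i ∈ s.filter (fun i => ∀ j, Int.fract (x i j - u j) < v j - u j), wt i ≤
        ∑ i ∈ s.filter (fun i => idx i ∈ Fintype.piFinset (fun j => range (m j))), wt i := by
      apply sum_le_sum_of_subset_of_nonneg
      · intro i hi
        rw [mem_filter] at hi ⊢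
        refine ⟨hi.1, ?_⟩
        rw [Fintype.mem_piFinset]
        intro j
        rw [mem_range]
        have h3 := hi.2 j
        have h4 : ((idx i j : ℕ) : ℝ) ≤ (q : ℝ) * Int.fract (y i j) :=
          Nat.floor_le (mul_nonneg hqR.le (Int.fract_nonneg _))
        have h5 : (q : ℝ) * (v j - u j) ≤ m j := Nat.le_ceil _
        have h6 : (q : ℝ) * Int.fract (y i j) < q * (v j - u j) := mul_lt_mul_of_pos_left h3 hqR
        have h7 : ((idx i j : ℕ) : ℝ) < m j := by linarith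
        exact_mod_cast h7
      · intro i hi _
        exact hwt i (mem_filter.1 hi).1
    rw [hbox m hmq] at h1
    have h3 : ∑ w ∈ Fintype.piFinset (fun j => range (m j)),
        ∑ i ∈ s.filter (fun i => idx i = w), wt i ≤ (∏ j, (m j : ℝ)) * ((1 / (q : ℝ) ^ r + κ) * Z) := by
      calc _ ≤ ∑ w ∈ Fintype.piFinset (fun j => range (m j)),
            (1 / (q : ℝ) ^ r + κ) * Z := by
            refine sum_le_sum fun w hw => hcell w ?_
            rw [Fintype.mem_piFinset] at hw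
            exact fun j => (mem_range.1 (hw j)).trans_le (hmq j)
        _ = _ := by rw [sum_const, nsmul_eq_mul, hcard m]
    have h5 : 0 ≤ ∏ j, (m j : ℝ) := prod_nonneg fun _ _ => Nat.cast_nonneg _
    have h5' : ∏ j, (m j : ℝ) ≤ (q : ℝ) ^ r := by
      rw [← hpow]
      exact prod_le_prod (fun _ _ => Nat.cast_nonneg _) fun j _ => by exact_mod_cast hmq j
    have h7 := prod_diff (univ : Finset (Fin r)) (fun j => v j - u j) (fun j => (m j : ℝ) * (1 / (q : ℝ)))
      (fun j _ => ⟨hb0 j, hb1 j⟩) (fun j _ => ⟨by positivity, by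
        rw [mul_one_div, div_le_one hqR]
        exact_mod_cast hmq j⟩)
    have h8 : ∑ j, |(v j - u j) - (m j : ℝ) * (1 / (q : ℝ))| ≤ ∑ _j : Fin r, 1 / (q : ℝ) := by
      refine sum_le_sum fun j _ => ?_
      have g1 : q * (v j - u j) ≤ m j := Nat.le_ceil _
      have g2 : (m j : ℝ) < q * (v j - u j) + 1 := Nat.ceil_lt_add_one (mul_nonneg hqR.le (hb0 j))
      have g3 : (v j - u j) - (m j : ℝ) * (1 / (q : ℝ)) = -((m j - q * (v j - u j)) / q) := by
        field_simp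
        ring
      rw [g3, abs_neg, abs_of_nonneg (div_nonneg (by linarith) hqR.le)]
      exact div_le_div_of_nonneg_right (by linarith) hqR.le
    rw [hA m] at h7
    have h9 := (abs_le.1 (h7.trans (h8.trans hsum1))).1
    set X := ∏ j, (m j : ℝ) with hX
    set Pb := ∏ j, (v j - u j) with hPb
    have h10 : (X * (1 / (q : ℝ) ^ r) - Pb) * Z ≤ ε / 4 * Z := mul_le_mul_of_nonneg_right (by linarith) hZ0
    have h11 : (q : ℝ) ^ r * κ * Z ≤ ε / 4 * Z := mul_le_mul_of_nonneg_right hκq hZ0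
    have h12 : X * (κ * Z) ≤ (q : ℝ) ^ r * (κ * Z) := mul_le_mul_of_nonneg_right h5' (by positivity)
    have h14 : X * ((1 / (q : ℝ) ^ r + κ) * Z) = X * (1 / (q : ℝ) ^ r) * Z + X * (κ * Z) := by ring
    rw [h14] at h3
    nlinarith

end Pool.Agent.Run7.h609.MK
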