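import Mathlib
import Pool.Agent.Run7.h794.MK.Stm
import Pool.Agent.H373R2.T7.Minor

/-!
# Primes in Bohr sets in short intervals, part 2: exceptional sets
-/

set_option autoImplicit false
set_option maxHeartbeats 4000000

namespace Pool.Agent.Run7.h609.MK

open Finset
open Pool.Agent.Run7.h794.MK
open Pool.Agent.H373R2.T7 (lamz ev_L' ev_log')

/-- the total mass of the windows -/
lemma win_total (g : ℕ → ℝ) (hg : ∀ n, 0 ≤ g n) (N H : ℕ) :
    ∑ n ∈ Icc 1 N, ∑ m ∈ Ioc n (n + H), g m ≤ H * ∑ m ∈ Ioc 0 (N + H), g m := by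
  have h1 : ∀ n, ∑ m ∈ Ioc n (n + H), g m = ∑ i ∈ range H, g (n + i + 1) := by
    intro n
    induction H with
    | zero => simp
    | succ H ih =>
      rw [show n + (H + 1) = (n + H) + 1 by ring, ← Finset.insert_Ioc_right_eq_Ioc_add_one (by omega : n ≤ n + H),
        sum_insert (by simp), sum_range_succ, ih]
      ring
  simp_rw [h1]
  rw [sum_comm]
  calc ∑ i ∈ range H, ∑ n ∈ Icc 1 N, g (n + i + 1) ≤ ∑ i ∈ range H, ∑ m ∈ Ioc 0 (N + H), g m := by
        refine sum_le_sum fun i hi => ?_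
        rw [mem_range] at hi
        have h2 : ∑ n ∈ Icc 1 N, g (n + i + 1) = ∑ m ∈ (Icc 1 N).image (fun n => n + i + 1), g m := by
          rw [sum_image]
          intro a _ b _ hab
          simp only at hab
          omega
        rw [h2]
        apply sum_le_sum_of_subset_of_nonneg
        · intro m hm
          rw [mem_image] at hm
          obtain ⟨n, hn, rfl⟩ := hm
          rw [mem_Icc] at hn
          rw [mem_Ioc]
          omega
        · intro m _ _
          exact hg m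
    _ = _ := by rw [sum_const, card_range, nsmul_eq_mul]

/-- the mass of the numbers in a window that are not primes -/
noncomputable def NP (n H : ℕ) : ℝ := ∑ m ∈ Ioc n (n + H), if m.Prime then 0 else ArithmeticFunction.vonMangoldt m

lemma NP_nonneg (n H : ℕ) : 0 ≤ NP n H := by
  unfold NP
  refine sum_nonneg fun m _ => ?_
  split_ifs
  · exact le_rfl
  · exact ArithmeticFunction.vonMangoldt_nonneg

/-- few windows contain many proper prime powers -/
lemma np_exc (U : ℕ) (η : ℝ) (hη : 0 < η) : ∃ N₀ : ℕ, ∀ N : ℕ, N₀ ≤ N → ∀ H : ℕ, 1 ≤ H → H ≤ N →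
    (((Icc 1 N).filter (fun n => η * H < NP n H)).card : ℝ) ≤ N / Real.log N ^ U := by
  obtain ⟨N1, h1⟩ := ev_log' (U + 1) (8 / η)
  refine ⟨max N1 3, fun N hN H hH1 hHN => ?_⟩
  have a1 := h1 N (le_trans (le_max_left _ _) hN)
  have hN3 : (3 : ℝ) ≤ N := by exact_mod_cast (le_trans (le_max_right _ _) hN)
  have hN0 : (0 : ℝ) < N := by linarith
  set L : ℝ := Real.log N with hL
  have hL1 : 1 ≤ L := by
    rw [hL, Real.le_log_iff_exp_le hN0]
    have := Real.exp_one_lt_d9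
    linarith
  have hL0 : 0 < L := by linarith
  have hH0 : (0 : ℝ) < H := by exact_mod_cast hH1
  have h2 : ∑ n ∈ Icc 1 N, NP n H ≤ H * (4 * √(N : ℝ) * (2 * L)) := by
    refine (win_total (fun m => if m.Prime then 0 else ArithmeticFunction.vonMangoldt m) (fun m => by
      split_ifs
      · exact le_rfl
      · exact ArithmeticFunction.vonMangoldt_nonneg) N H).trans ?_
    refine mul_le_mul_of_nonneg_left ?_ hH0.le
    have h3 : ∑ m ∈ Ioc 0 (N + H), (if m.Prime then (0 : ℝ) else ArithmeticFunction.vonMangoldt m) =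
        Chebyshev.psi ((N + H : ℕ) : ℝ) - Chebyshev.theta ((N + H : ℕ) : ℝ) := by
      rw [Chebyshev.psi_sub_theta_eq_sum_not_prime, Nat.floor_natCast, sum_filter]
      refine sum_congr rfl fun m _ => ?_
      by_cases hm : m.Prime
      · simp [hm]
      · simp [hm]
    rw [h3]
    have h4 : (1 : ℝ) ≤ ((N + H : ℕ) : ℝ) := by
      push_cast
      linarith
    refine (Chebyshev.psi_sub_theta_le h4).trans ?_
    have h5 : ((N + H : ℕ) : ℝ) ≤ 2 * N := by
      push_cast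
      have : (H : ℝ) ≤ N := by exact_mod_cast hHN
      linarith
    have h6 : √((N + H : ℕ) : ℝ) ≤ 2 * √(N : ℝ) := by
      calc √((N + H : ℕ) : ℝ) ≤ √(4 * N) := Real.sqrt_le_sqrt (by linarith)
        _ = 2 * √(N : ℝ) := by
            rw [Real.sqrt_mul (by norm_num)]
            congr 1
            rw [show (4 : ℝ) = 2 ^ 2 by norm_num]
            exact Real.sqrt_sq (by norm_num)
    have h7 : Real.log ((N + H : ℕ) : ℝ) ≤ 2 * L := by
      calc Real.log ((N + H : ℕ) : ℝ) ≤ Real.log (2 * N) := Real.log_le_log (by linarith) h5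
        _ = Real.log 2 + L := by rw [Real.log_mul (by norm_num) hN0.ne']
        _ ≤ 2 * L := by
            have : Real.log 2 ≤ 1 := by
              have := Real.log_two_lt_d9
              linarith
            linarith
    have h8 : 0 ≤ Real.log ((N + H : ℕ) : ℝ) := Real.log_nonneg h4
    calc 2 * √((N + H : ℕ) : ℝ) * Real.log ((N + H : ℕ) : ℝ) ≤ 2 * (2 * √(N : ℝ)) * (2 * L) := by gcongr
      _ = _ := by ring
  have h3 : (((Icc 1 N).filter (fun n => η * H < NP n H)).card : ℝ) * (η * H) ≤ ∑ n ∈ Icc 1 N, NP n H := by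
    calc _ = ∑ n ∈ (Icc 1 N).filter (fun n => η * H < NP n H), (η * H) := by rw [sum_const, nsmul_eq_mul]
      _ ≤ ∑ n ∈ (Icc 1 N).filter (fun n => η * H < NP n H), NP n H :=
          sum_le_sum fun n hn => (mem_filter.1 hn).2.le
      _ ≤ _ := sum_le_sum_of_subset_of_nonneg (filter_subset _ _) fun n _ _ => NP_nonneg n H
  have h4 := h3.trans h2
  have h5 : (((Icc 1 N).filter (fun n => η * H < NP n H)).card : ℝ) ≤ 8 * √(N : ℝ) * L / η := by
    rw [le_div_iff₀ hη]
    have h6 : (((Icc 1 N).filter (fun n => η * H < NP n H)).card : ℝ) * η * H ≤ (8 * √(N : ℝ) * L) * H := by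
      calc _ = (((Icc 1 N).filter (fun n => η * H < NP n H)).card : ℝ) * (η * H) := by ring
        _ ≤ _ := h4
        _ = _ := by ring
    exact le_of_mul_le_mul_right h6 hH0
  refine h5.trans ?_
  rw [le_div_iff₀ (by positivity)]
  have h6 : √(N : ℝ) * √(N : ℝ) = N := Real.mul_self_sqrt hN0.le
  calc 8 * √(N : ℝ) * L / η * L ^ U = √(N : ℝ) * (8 / η * L ^ (U + 1)) := by
        rw [pow_succ]
        field_simp
    _ ≤ √(N : ℝ) * √(N : ℝ) := mul_le_mul_of_nonneg_left a1 (Real.sqrt_nonneg _)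
    _ = N := h6

lemma dyadic (X1 N n : ℕ) (hX : 1 ≤ X1) (h1 : X1 < n) (h2 : n ≤ N) :
    ∃ j ∈ range (Nat.log 2 N + 1), X1 * 2 ^ j < n ∧ n ≤ X1 * 2 ^ (j + 1) := by
  have h3 : 1 ≤ (n - 1) / X1 := (Nat.one_le_div_iff hX).2 (by omega)
  refine ⟨Nat.log 2 ((n - 1) / X1), ?_, ?_, ?_⟩
  · rw [mem_range, Nat.lt_succ_iff]
    apply Nat.log_mono_right
    exact (Nat.div_le_self _ _).trans (by omega)
  · have h4 : 2 ^ Nat.log 2 ((n - 1) / X1) ≤ (n - 1) / X1 := Nat.pow_log_le_self 2 (by omega)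
    have h5 : X1 * 2 ^ Nat.log 2 ((n - 1) / X1) ≤ X1 * ((n - 1) / X1) := Nat.mul_le_mul_left _ h4
    have h6 : X1 * ((n - 1) / X1) ≤ n - 1 := Nat.mul_div_le _ _
    omega
  · have h4 : (n - 1) / X1 < 2 ^ (Nat.log 2 ((n - 1) / X1) + 1) := Nat.lt_pow_succ_log_self (by norm_num) _
    rw [Nat.div_lt_iff_lt_mul (by omega)] at h4
    rw [mul_comm]
    omega

/-- few windows are exceptional for a given frequency -/
lemma ms_exc (hALL : S_ALL) (U : ℕ) (η : ℝ) (hη : 0 < η) : ∃ C B₀ : ℕ, ∀ E : ℕ, ∃ N₀ : ℕ, ∀ N : ℕ, N₀ ≤ N →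
    ∀ z : ℕ, Real.log N ^ B₀ ≤ z → (z : ℝ) ≤ Real.log N ^ E → ∀ H : ℕ, (N : ℝ) ^ (1 / 3 : ℝ) * Real.log N ^ C ≤ H →
    (H : ℝ) * Real.log N ^ C ≤ N → ∀ α : ℝ,
    (((Ioc ⌊(N : ℝ) / Real.log N ^ (U + 2)⌋₊ N).filter
      (fun n => η * H < ‖W (fun n => ArithmeticFunction.vonMangoldt n - lamz z n) α n H‖)).card : ℝ) ≤
      N / Real.log N ^ (U + 1) := by
  obtain ⟨C1, B0, h1⟩ := hALL (U + 4)
  refine ⟨C1 + U + 3, B0, fun E => ?_⟩
  obtain ⟨X0, h2⟩ := h1 (E + 1)
  obtain ⟨N1, h3⟩ := ev_log' (U + 2) 2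
  obtain ⟨N2, h4⟩ := ev_L' (max (2 ^ (E + 1)) (3 * 2 ^ (U + 4) / η ^ 2) + 3)
  refine ⟨max (max N1 N2) (max (X0 ^ 2 + 4) 4), fun N hN z hz1 hz2 H hH1 hH2 α => ?_⟩
  have a1 := h3 N (le_trans (le_trans (le_max_left _ _) (le_max_left _ _)) hN)
  have a2 := h4 N (le_trans (le_trans (le_max_right _ _) (le_max_left _ _)) hN)
  have a3 : X0 ^ 2 + 4 ≤ N := le_trans (le_trans (le_max_left _ _) (le_max_right _ _)) hN
  have hN4 : 4 ≤ N := le_trans (le_trans (le_max_right _ _) (le_max_right _ _)) hN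
  have hNR : (4 : ℝ) ≤ N := by exact_mod_cast hN4
  have hN0 : (0 : ℝ) < N := by linarith
  set L : ℝ := Real.log N with hL
  have hLE : (2 : ℝ) ^ (E + 1) ≤ L := by
    have := le_max_left ((2 : ℝ) ^ (E + 1)) (3 * 2 ^ (U + 4) / η ^ 2)
    linarith
  have hLη : 3 * 2 ^ (U + 4) / η ^ 2 ≤ L := by
    have := le_max_right ((2 : ℝ) ^ (E + 1)) (3 * 2 ^ (U + 4) / η ^ 2)
    linarith
  have hL3 : 3 ≤ L := by
    have : (0 : ℝ) ≤ max ((2 : ℝ) ^ (E + 1)) (3 * 2 ^ (U + 4) / η ^ 2) := le_max_of_le_left (by positivity)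
    linarith
  have hL0 : 0 < L := by linarith
  have hL1 : 1 ≤ L := by linarith
  have hLU : 0 < L ^ (U + 2) := by positivity
  have hs : √(N : ℝ) * √(N : ℝ) = N := Real.mul_self_sqrt hN0.le
  have hs2 : 2 ≤ √(N : ℝ) := by
    rw [Real.le_sqrt (by norm_num) hN0.le]
    linarith
  -- the start of the dyadic ranges
  set X1 : ℕ := ⌊(N : ℝ) / L ^ (U + 2)⌋₊ with hX1
  have hq : 2 * √(N : ℝ) ≤ (N : ℝ) / L ^ (U + 2) := by
    rw [le_div_iff₀ hLU]
    calc 2 * √(N : ℝ) * L ^ (U + 2) = √(N : ℝ) * (2 * L ^ (U + 2)) := by ring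
      _ ≤ √(N : ℝ) * √(N : ℝ) := mul_le_mul_of_nonneg_left a1 (Real.sqrt_nonneg _)
      _ = N := hs
  have hX1lo : (N : ℝ) / L ^ (U + 2) < X1 + 1 := Nat.lt_floor_add_one _
  have hX1s : √(N : ℝ) ≤ X1 := by linarith
  have hX1h : (N : ℝ) / L ^ (U + 2) / 2 ≤ X1 := by linarith
  have hX11 : 1 ≤ X1 := by
    have : (1 : ℝ) ≤ X1 := by linarith
    exact_mod_cast this
  have hX1X0 : X0 ≤ X1 := by
    have h5 : (X0 : ℝ) ≤ √(N : ℝ) := by
      apply Real.le_sqrt_of_sq_le
      have : X0 ^ 2 ≤ N := by omega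
      exact_mod_cast this
    have : (X0 : ℝ) ≤ X1 := h5.trans hX1s
    exact_mod_cast this
  set bad : ℕ → Prop := fun n => η * H < ‖W (fun n => ArithmeticFunction.vonMangoldt n - lamz z n) α n H‖ with hbad
  -- one dyadic range
  have hone : ∀ x : ℕ, X1 ≤ x → x < N →
      (((Ioc x (2 * x)).filter bad).card : ℝ) ≤ N * (2 ^ (U + 4) / η ^ 2) / L ^ (U + 4) := by
    intro x hx1 hx2
    have hxR : (X1 : ℝ) ≤ x := by exact_mod_cast hx1
    have hxN : (x : ℝ) ≤ N := by exact_mod_cast hx2.le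
    have hx0 : (0 : ℝ) < x := by linarith
    have hlogx1 : Real.log x ≤ L := Real.log_le_log hx0 hxN
    have hlogx2 : L / 2 ≤ Real.log x := by
      rw [hL, ← Real.log_sqrt hN0.le]
      exact Real.log_le_log (by linarith) (hX1s.trans hxR)
    have hlogx0 : 0 < Real.log x := by linarith
    have b1 : Real.log x ^ B0 ≤ z := le_trans (pow_le_pow_left₀ hlogx0.le hlogx1 _) hz1
    have b2 : (z : ℝ) ≤ Real.log x ^ (E + 1) := by
      refine hz2.trans ?_
      calc L ^ E ≤ (L / 2) ^ (E + 1) := by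
            rw [div_pow, le_div_iff₀ (by positivity), pow_succ L]
            exact mul_le_mul_of_nonneg_left hLE (by positivity)
        _ ≤ _ := pow_le_pow_left₀ (by linarith) hlogx2 _
    have b3 : (x : ℝ) ^ (1 / 3 : ℝ) * Real.log x ^ C1 ≤ H := by
      refine le_trans ?_ hH1
      have : L ^ C1 ≤ L ^ (C1 + U + 3) := pow_le_pow_right₀ hL1 (by omega)
      have h5 : Real.log x ^ C1 ≤ L ^ (C1 + U + 3) := (pow_le_pow_left₀ hlogx0.le hlogx1 _).trans this
      gcongr
    have b4 : (H : ℝ) * Real.log x ^ C1 ≤ x := by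
      refine le_trans ?_ (hX1h.trans hxR)
      calc (H : ℝ) * Real.log x ^ C1 ≤ H * L ^ C1 := by gcongr
        _ ≤ (N : ℝ) / L ^ (U + 3) := by
            rw [le_div_iff₀ (by positivity)]
            calc (H : ℝ) * L ^ C1 * L ^ (U + 3) = H * L ^ (C1 + U + 3) := by ring
              _ ≤ N := hH2
        _ ≤ (N : ℝ) / L ^ (U + 2) / 2 := by
            rw [div_div]
            apply div_le_div_of_nonneg_left hN0.le (by positivity)
            rw [pow_succ L (U + 2)]
            apply mul_le_mul_of_nonneg_left _ hLU.le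
            linarith
    have h5 := h2 x (hX1X0.trans hx1) z b1 b2 H b3 b4 α
    have hH0 : (0 : ℝ) < H := by
      refine lt_of_lt_of_le ?_ hH1
      positivity
    have h6 : (((Ioc x (2 * x)).filter bad).card : ℝ) * (η * H) ^ 2 ≤
        MS (fun n => ArithmeticFunction.vonMangoldt n - lamz z n) α x H := by
      unfold MS
      calc _ = ∑ n ∈ (Ioc x (2 * x)).filter bad, (η * H) ^ 2 := by rw [sum_const, nsmul_eq_mul]
        _ ≤ ∑ n ∈ (Ioc x (2 * x)).filter bad, ‖W (fun n => ArithmeticFunction.vonMangoldt n - lamz z n) α n H‖ ^ 2 := by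
            refine sum_le_sum fun n hn => ?_
            have : η * H < _ := (mem_filter.1 hn).2
            exact pow_le_pow_left₀ (by positivity) this.le 2
        _ ≤ _ := sum_le_sum_of_subset_of_nonneg (filter_subset _ _) fun n _ _ => by positivity
    have h7 : (x : ℝ) * (H : ℝ) ^ 2 / Real.log x ^ (U + 4) ≤ N * (H : ℝ) ^ 2 / (L / 2) ^ (U + 4) := by
      gcongr
    have h8 := (h6.trans h5).trans h7
    rw [le_div_iff₀ (by positivity)]
    have h9 : (((Ioc x (2 * x)).filter bad).card : ℝ) * L ^ (U + 4) * ((η * H) ^ 2) ≤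
        (N * (2 ^ (U + 4) / η ^ 2)) * ((η * H) ^ 2) := by
      calc _ = ((((Ioc x (2 * x)).filter bad).card : ℝ) * (η * H) ^ 2) * L ^ (U + 4) := by ring
        _ ≤ (N * (H : ℝ) ^ 2 / (L / 2) ^ (U + 4)) * L ^ (U + 4) := mul_le_mul_of_nonneg_right h8 (by positivity)
        _ = _ := by
            rw [div_pow]
            field_simp
    exact le_of_mul_le_mul_right h9 (by positivity)
  -- the union
  have hcov : ((Ioc X1 N).filter bad).card ≤
      ∑ j ∈ (range (Nat.log 2 N + 1)).filter (fun j => X1 * 2 ^ j < N), ((Ioc (X1 * 2 ^ j) (2 * (X1 * 2 ^ j))).filter bad).card := by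
    refine le_trans (card_le_card ?_) card_biUnion_le
    intro n hn
    rw [mem_filter, mem_Ioc] at hn
    obtain ⟨j, hj, hj1, hj2⟩ := dyadic X1 N n hX11 hn.1.1 hn.1.2
    rw [mem_biUnion]
    refine ⟨j, mem_filter.2 ⟨hj, by omega⟩, ?_⟩
    rw [mem_filter, mem_Ioc]
    refine ⟨⟨hj1, ?_⟩, hn.2⟩
    rw [pow_succ] at hj2
    linarith
  have hcard : (((range (Nat.log 2 N + 1)).filter (fun j => X1 * 2 ^ j < N)).card : ℝ) ≤ 3 * L := by
    have h5 : ((range (Nat.log 2 N + 1)).filter (fun j => X1 * 2 ^ j < N)).card ≤ Nat.log 2 N + 1 :=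
      (card_filter_le _ _).trans (by rw [card_range])
    have h6 : (Nat.log 2 N : ℝ) * Real.log 2 ≤ L := by
      rw [← Real.log_pow]
      apply Real.log_le_log (by positivity)
      exact_mod_cast Nat.pow_log_le_self 2 (by omega)
    have h7 : (0.5 : ℝ) ≤ Real.log 2 := by
      have := Real.log_two_gt_d9
      linarith
    have h8 : (Nat.log 2 N : ℝ) ≤ 2 * L := by nlinarith [Nat.cast_nonneg (α := ℝ) (Nat.log 2 N)]
    calc (((range (Nat.log 2 N + 1)).filter (fun j => X1 * 2 ^ j < N)).card : ℝ) ≤ Nat.log 2 N + 1 := by exact_mod_cast h5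
      _ ≤ _ := by linarith
  calc (((Ioc X1 N).filter bad).card : ℝ) ≤
        ∑ j ∈ (range (Nat.log 2 N + 1)).filter (fun j => X1 * 2 ^ j < N),
          (((Ioc (X1 * 2 ^ j) (2 * (X1 * 2 ^ j))).filter bad).card : ℝ) := by exact_mod_cast hcov
    _ ≤ ∑ j ∈ (range (Nat.log 2 N + 1)).filter (fun j => X1 * 2 ^ j < N), N * (2 ^ (U + 4) / η ^ 2) / L ^ (U + 4) := by
        refine sum_le_sum fun j hj => hone _ ?_ (mem_filter.1 hj).2
        exact Nat.le_mul_of_pos_right _ (by positivity)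
    _ = (((range (Nat.log 2 N + 1)).filter (fun j => X1 * 2 ^ j < N)).card : ℝ) * (N * (2 ^ (U + 4) / η ^ 2) / L ^ (U + 4)) := by
        rw [sum_const, nsmul_eq_mul]
    _ ≤ 3 * L * (N * (2 ^ (U + 4) / η ^ 2) / L ^ (U + 4)) := mul_le_mul_of_nonneg_right hcard (by positivity)
    _ = (3 * 2 ^ (U + 4) / η ^ 2) * (N * L / L ^ (U + 4)) := by ring
    _ ≤ L * (N * L / L ^ (U + 4)) := mul_le_mul_of_nonneg_right hLη (by positivity)
    _ ≤ N / L ^ (U + 1) := by
        rw [le_div_iff₀ (by positivity)]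
        have : L * (N * L / L ^ (U + 4)) * L ^ (U + 1) = N / L := by
          rw [show U + 4 = (U + 1) + 1 + 1 + 1 by ring]
          simp only [pow_succ]
          field_simp
        rw [this]
        exact div_le_self hN0.le hL1

end Pool.Agent.Run7.h609.MK
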