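import Mathlib
import Pool.Agent.Run7.h609.MK.BeaA
import Pool.Agent.Run7.h609.MK.BeaB
import Pool.Agent.Run7.h609.MK.Weyl

/-!
# Primes in Bohr sets in short intervals, part 3: the theorem
-/

set_option autoImplicit false
set_option maxHeartbeats 4000000

namespace Pool.Agent.Run7.h609.MK

open Finset
open Pool.Agent.Run7.h794.MK
open Pool.Agent.H807R2.Dav (ee ee_add norm_ee ee_eq ee_int ee_zero)
open Pool.Agent.H373R2.T7 (lamz ev_L' ev_log')

open ArithmeticFunction (vonMangoldt)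

lemma eET (y : ℝ) : Pool.Agent.V11226.ETN.e y = ee y := by
  rw [ee_eq]
  unfold Pool.Agent.V11226.ETN.e
  congr 1
  push_cast
  ring

/-- from the von Mangoldt function to the primes -/
lemma toprimes (N n H U : ℕ) (κ : ℝ) (hκ0 : 0 < κ) (hκ1 : κ ≤ 1 / 4) (hL3 : 3 ≤ Real.log N)
    (hbig : 4 * (U + 3) * Real.log (Real.log N) ≤ κ * Real.log N) (hn : (N : ℝ) / Real.log N ^ (U + 2) ≤ n) (hnN : n ≤ N)
    (hHn : H ≤ n) (hlogn : Real.log N / 2 ≤ Real.log n)
    (h0 : ‖W (fun n => vonMangoldt n) 0 n H - H‖ ≤ 2 * κ * H) (hNP : NP n H ≤ κ * H) (θ c : ℝ)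
    (hθ : ‖W (fun n => vonMangoldt n) θ n H - c‖ ≤ 2 * κ * H) :
    ‖∑ p ∈ (Ioc n (n + H)).filter Nat.Prime, ee ((p : ℝ) * θ) - ((c / Real.log N : ℝ) : ℂ)‖ ≤ 4 * κ * (H / Real.log N) := by
  set L : ℝ := Real.log N with hL
  have hL0 : 0 < L := by linarith
  have hN0 : (0 : ℝ) < N := by
    rcases Nat.eq_zero_or_pos N with h | h
    · rw [hL, h] at hL3; simp at hL3; linarith
    · exact_mod_cast h
  have hn0 : (0 : ℝ) < n := lt_of_lt_of_le (by positivity) hn
  have hH0 : (0 : ℝ) ≤ H := Nat.cast_nonneg _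
  set Pr := (Ioc n (n + H)).filter Nat.Prime with hPr
  -- logarithms of the primes
  have hlog : ∀ p ∈ Pr, |Real.log p - L| ≤ (U + 3) * Real.log L ∧ Real.log n ≤ Real.log p := by
    intro p hp
    rw [hPr, mem_filter, mem_Ioc] at hp
    have g1 : (n : ℝ) < p := by exact_mod_cast hp.1.1
    have g2 : (p : ℝ) ≤ 2 * N := by
      have : p ≤ 2 * N := by omega
      exact_mod_cast this
    have g3 : Real.log p ≤ Real.log 2 + L := by
      rw [hL, ← Real.log_mul (by norm_num) hN0.ne']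
      exact Real.log_le_log (by linarith) g2
    have g4 : L - (U + 2) * Real.log L ≤ Real.log p := by
      have g5 : Real.log ((N : ℝ) / L ^ (U + 2)) = L - (U + 2) * Real.log L := by
        rw [Real.log_div hN0.ne' (by positivity), Real.log_pow]
        push_cast
        ring
      rw [← g5]
      exact Real.log_le_log (by positivity) (hn.trans g1.le)
    have g6 : 1 ≤ Real.log L := by
      rw [Real.le_log_iff_exp_le hL0]
      have := Real.exp_one_lt_d9
      linarith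
    have g7 : Real.log 2 ≤ 1 := by
      have := Real.log_two_lt_d9
      linarith
    have g8 : (0 : ℝ) ≤ U := Nat.cast_nonneg _
    refine ⟨?_, Real.log_le_log hn0 g1.le⟩
    rw [abs_le]
    constructor <;> nlinarith
  -- the number of the primes
  have hW0 : W (fun n => vonMangoldt n) 0 n H = ((∑ m ∈ Ioc n (n + H), vonMangoldt m : ℝ) : ℂ) := by
    unfold W
    push_cast
    refine sum_congr rfl fun m _ => ?_
    rw [mul_zero, ee_zero, mul_one]
  have hsumL : ∑ m ∈ Ioc n (n + H), vonMangoldt m ≤ 2 * H := by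
    rw [hW0, ← Complex.ofReal_natCast, ← Complex.ofReal_sub, Complex.norm_real, Real.norm_eq_abs] at h0
    have := (abs_le.1 h0).2
    nlinarith
  have hcard : (Pr.card : ℝ) * L ≤ 4 * H := by
    have g1 : (Pr.card : ℝ) * (L / 2) ≤ ∑ m ∈ Ioc n (n + H), vonMangoldt m := by
      calc (Pr.card : ℝ) * (L / 2) = ∑ _p ∈ Pr, L / 2 := by rw [sum_const, nsmul_eq_mul]
        _ ≤ ∑ p ∈ Pr, vonMangoldt p := by
            refine sum_le_sum fun p hp => ?_
            rw [ArithmeticFunction.vonMangoldt_apply_prime (mem_filter.1 hp).2]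
            exact hlogn.trans (hlog p hp).2
        _ ≤ _ := sum_le_sum_of_subset_of_nonneg (filter_subset _ _) fun _ _ _ => ArithmeticFunction.vonMangoldt_nonneg
    linarith
  -- the decomposition
  have hdec : (L : ℂ) * ∑ p ∈ Pr, ee ((p : ℝ) * θ) = W (fun n => vonMangoldt n) θ n H -
      ∑ m ∈ Ioc n (n + H), ((if m.Prime then (0 : ℝ) else vonMangoldt m : ℝ) : ℂ) * ee ((m : ℝ) * θ) -
      ∑ p ∈ Pr, ((Real.log p - L : ℝ) : ℂ) * ee ((p : ℝ) * θ) := by
    unfold W
    rw [hPr, sum_filter, sum_filter, mul_sum, ← sum_sub_distrib, ← sum_sub_distrib]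
    refine sum_congr rfl fun m _ => ?_
    by_cases hm : m.Prime
    · simp only [hm, if_true]
      rw [ArithmeticFunction.vonMangoldt_apply_prime hm]
      push_cast
      ring
    · simp only [hm, if_false]
      ring
  have h1 : ‖∑ m ∈ Ioc n (n + H), ((if m.Prime then (0 : ℝ) else vonMangoldt m : ℝ) : ℂ) * ee ((m : ℝ) * θ)‖ ≤ κ * H := by
    refine le_trans ?_ hNP
    unfold NP
    refine (norm_sum_le _ _).trans (sum_le_sum fun m _ => ?_)
    rw [norm_mul, norm_ee, mul_one, Complex.norm_real, Real.norm_eq_abs, abs_of_nonneg]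
    split_ifs
    · exact le_rfl
    · exact ArithmeticFunction.vonMangoldt_nonneg
  have h2 : ‖∑ p ∈ Pr, ((Real.log p - L : ℝ) : ℂ) * ee ((p : ℝ) * θ)‖ ≤ κ * H := by
    calc _ ≤ ∑ _p ∈ Pr, (U + 3) * Real.log L := by
          refine (norm_sum_le _ _).trans (sum_le_sum fun p hp => ?_)
          rw [norm_mul, norm_ee, mul_one, Complex.norm_real, Real.norm_eq_abs]
          exact (hlog p hp).1
      _ = (Pr.card : ℝ) * ((U + 3) * Real.log L) := by rw [sum_const, nsmul_eq_mul]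
      _ ≤ (4 * H / L) * ((U + 3) * Real.log L) := by
          apply mul_le_mul_of_nonneg_right
          · rw [le_div_iff₀ hL0]
            exact hcard
          · have : 0 ≤ Real.log L := Real.log_nonneg (by linarith)
            positivity
      _ = (H / L) * (4 * (U + 3) * Real.log L) := by ring
      _ ≤ (H / L) * (κ * L) := mul_le_mul_of_nonneg_left hbig (by positivity)
      _ = κ * H := by field_simp
  have h3 : (L : ℂ) ≠ 0 := by
    exact_mod_cast hL0.ne'
  have h4 : ∑ p ∈ Pr, ee ((p : ℝ) * θ) - ((c / L : ℝ) : ℂ) = ((L : ℂ) * ∑ p ∈ Pr, ee ((p : ℝ) * θ) - (c : ℂ)) / L := by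
    rw [sub_div, mul_div_cancel_left₀ _ h3]
    push_cast
    ring
  rw [h4, norm_div, Complex.norm_real, Real.norm_eq_abs, abs_of_pos hL0, hdec]
  have h5 : ‖W (fun n => vonMangoldt n) θ n H -
      ∑ m ∈ Ioc n (n + H), ((if m.Prime then (0 : ℝ) else vonMangoldt m : ℝ) : ℂ) * ee ((m : ℝ) * θ) -
      ∑ p ∈ Pr, ((Real.log p - L : ℝ) : ℂ) * ee ((p : ℝ) * θ) - (c : ℂ)‖ ≤ 4 * κ * H := by
    have h6 : W (fun n => vonMangoldt n) θ n H -
      ∑ m ∈ Ioc n (n + H), ((if m.Prime then (0 : ℝ) else vonMangoldt m : ℝ) : ℂ) * ee ((m : ℝ) * θ) -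
      ∑ p ∈ Pr, ((Real.log p - L : ℝ) : ℂ) * ee ((p : ℝ) * θ) - (c : ℂ) =
      (W (fun n => vonMangoldt n) θ n H - (c : ℂ)) - ∑ m ∈ Ioc n (n + H), ((if m.Prime then (0 : ℝ) else vonMangoldt m : ℝ) : ℂ) * ee ((m : ℝ) * θ) -
      ∑ p ∈ Pr, ((Real.log p - L : ℝ) : ℂ) * ee ((p : ℝ) * θ) := by ring
    rw [h6]
    refine (norm_sub_le _ _).trans ?_
    have h7 := norm_sub_le (W (fun n => vonMangoldt n) θ n H - (c : ℂ))
      (∑ m ∈ Ioc n (n + H), ((if m.Prime then (0 : ℝ) else vonMangoldt m : ℝ) : ℂ) * ee ((m : ℝ) * θ))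
    linarith
  calc _ ≤ 4 * κ * H / L := div_le_div_of_nonneg_right h5 hL0.le
    _ = _ := by ring

/-- **Primes in Bohr sets of bounded rank in almost all intervals of length `N^(1/3) log^C N`** -/
theorem bohr (hALL : S_ALL) (r U : ℕ) (ε : ℝ) (hε : 0 < ε) : ∃ D C N₀ : ℕ, ∀ N : ℕ, N₀ ≤ N → ∀ H : ℕ,
    (N : ℝ) ^ (1 / 3 : ℝ) * Real.log N ^ C ≤ H → (H : ℝ) * Real.log N ^ C ≤ N → ∀ α : Fin r → ℝ,
    (∀ h : Fin r → ℤ, h ≠ 0 → (∀ j, |h j| ≤ D) → ∀ b : ℤ, Real.log N ^ C / H < |∑ j, (h j : ℝ) * α j - b|) →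
    ∃ E : Finset ℕ, (E.card : ℝ) ≤ N / Real.log N ^ U ∧ ∀ n : ℕ, 1 ≤ n → n ≤ N → n ∉ E →
      ∀ u v : Fin r → ℝ, (∀ j, u j ≤ v j) → (∀ j, v j ≤ u j + 1) →
      |(((Ioc n (n + H)).filter (fun p : ℕ => p.Prime ∧ ∀ j, Int.fract (α j * p - u j) < v j - u j)).card : ℝ) -
        (∏ j, (v j - u j)) * (H / Real.log N)| ≤ ε * (H / Real.log N) := by
  classical
  obtain ⟨M, δ, hδ, hweyl⟩ := weyl r ε hε
  set κ : ℝ := min (δ / 4) (1 / 4) with hκdef
  have hκ0 : 0 < κ := lt_min (by positivity) (by norm_num)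
  have hκ1 : κ ≤ 1 / 4 := min_le_right _ _
  have hκδ : 4 * κ ≤ δ := by
    have : κ ≤ δ / 4 := min_le_left _ _
    linarith
  obtain ⟨Dm, B, hmodel⟩ := model κ hκ0
  obtain ⟨C1, B0, hms⟩ := ms_exc hALL U κ hκ0
  set mx : ℕ := max B B0 with hmx
  obtain ⟨X1, hX1⟩ := hmodel (mx + 2)
  obtain ⟨X2, hX2⟩ := model0 κ hκ0 (mx + 2)
  obtain ⟨N1, hN1⟩ := hms (mx + 1)
  obtain ⟨N2, hN2⟩ := np_exc (U + 1) κ hκ0
  obtain ⟨N3, hN3⟩ := ev_log' (U + 2) 2
  set Hs : Finset (Fin r → ℤ) := Fintype.piFinset (fun _ : Fin r => Icc (-(M : ℤ)) M) with hHs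
  obtain ⟨N4, hN4⟩ := ev_L' (max (max (2 ^ (mx + 2)) (Hs.card + 2 : ℝ)) (max (Dm : ℝ) ((8 * (U + 3) / κ) ^ 2)) + 3)
  refine ⟨Dm * M, C1 + B + U + 4, max (max (max N1 N2) (max N3 N4)) (max (X1 ^ 2 + X2 ^ 2) 4), ?_⟩
  intro N hN H hH1 hH2 α hα
  have b1 := hN1 N (le_trans (le_trans (le_trans (le_max_left _ _) (le_max_left _ _)) (le_max_left _ _)) hN)
  have b2 := hN2 N (le_trans (le_trans (le_trans (le_max_right _ _) (le_max_left _ _)) (le_max_left _ _)) hN)
  have b3 := hN3 N (le_trans (le_trans (le_trans (le_max_left _ _) (le_max_right _ _)) (le_max_left _ _)) hN)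
  have b4 := hN4 N (le_trans (le_trans (le_trans (le_max_right _ _) (le_max_right _ _)) (le_max_left _ _)) hN)
  have b5 : X1 ^ 2 + X2 ^ 2 ≤ N := le_trans (le_trans (le_max_left _ _) (le_max_right _ _)) hN
  have b6 : 4 ≤ N := le_trans (le_trans (le_max_right _ _) (le_max_right _ _)) hN
  have hNR : (4 : ℝ) ≤ N := by exact_mod_cast b6
  have hN0 : (0 : ℝ) < N := by linarith
  set L : ℝ := Real.log N with hL
  have c1 : (2 : ℝ) ^ (mx + 2) ≤ L := by
    have := (le_max_left ((2 : ℝ) ^ (mx + 2)) (Hs.card + 2 : ℝ)).trans (le_max_left _ (max (Dm : ℝ) ((8 * (U + 3) / κ) ^ 2)))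
    linarith
  have c2 : (Hs.card + 2 : ℝ) ≤ L := by
    have := (le_max_right ((2 : ℝ) ^ (mx + 2)) (Hs.card + 2 : ℝ)).trans (le_max_left _ (max (Dm : ℝ) ((8 * (U + 3) / κ) ^ 2)))
    linarith
  have c3 : (Dm : ℝ) ≤ L := by
    have := (le_max_left (Dm : ℝ) ((8 * (U + 3) / κ) ^ 2)).trans (le_max_right (max ((2 : ℝ) ^ (mx + 2)) (Hs.card + 2 : ℝ)) _)
    linarith
  have c4 : ((8 * (U + 3) / κ) ^ 2 : ℝ) ≤ L := by
    have := (le_max_right (Dm : ℝ) ((8 * (U + 3) / κ) ^ 2)).trans (le_max_right (max ((2 : ℝ) ^ (mx + 2)) (Hs.card + 2 : ℝ)) _)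
    linarith
  have hL3 : 3 ≤ L := by
    have : (0 : ℝ) ≤ max (max ((2 : ℝ) ^ (mx + 2)) (Hs.card + 2 : ℝ)) (max (Dm : ℝ) ((8 * (U + 3) / κ) ^ 2)) :=
      le_max_of_le_left (le_max_of_le_left (by positivity))
    linarith
  have hL0 : 0 < L := by linarith
  have hL1 : 1 ≤ L := by linarith
  have hLU : 0 < L ^ (U + 2) := by positivity
  have hbig : 4 * (U + 3) * Real.log L ≤ κ * L := by
    have g1 : Real.log L ≤ 2 * √L := by
      have g2 : Real.log L = 2 * Real.log (√L) := by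
        rw [Real.log_sqrt hL0.le]
        ring
      rw [g2]
      have := Real.log_le_self (Real.sqrt_nonneg L)
      linarith
    have g3 : 8 * (U + 3) / κ ≤ √L := Real.le_sqrt_of_sq_le c4
    rw [div_le_iff₀ hκ0] at g3
    have g4 : √L * √L = L := Real.mul_self_sqrt hL0.le
    calc 4 * (U + 3) * Real.log L ≤ 4 * (U + 3) * (2 * √L) := by gcongr
      _ = (8 * (U + 3)) * √L := by ring
      _ ≤ (√L * κ) * √L := mul_le_mul_of_nonneg_right g3 (Real.sqrt_nonneg _)
      _ = κ * (√L * √L) := by ring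
      _ = κ * L := by rw [g4]
  -- the level of the sieve
  set z : ℕ := ⌈L ^ mx⌉₊ with hz
  have hz1 : L ^ mx ≤ z := Nat.le_ceil _
  have hz2 : (z : ℝ) ≤ L ^ (mx + 1) := by
    have g1 : (z : ℝ) < L ^ mx + 1 := Nat.ceil_lt_add_one (by positivity)
    have g2 : 1 ≤ L ^ mx := one_le_pow₀ hL1
    rw [pow_succ]
    nlinarith
  have hzB : L ^ B ≤ z := (pow_le_pow_right₀ hL1 (le_max_left _ _)).trans hz1
  have hzB0 : L ^ B0 ≤ z := (pow_le_pow_right₀ hL1 (le_max_right _ _)).trans hz1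
  have hz0 : 1 ≤ z := by
    have : (1 : ℝ) ≤ z := (one_le_pow₀ hL1).trans hz1
    exact_mod_cast this
  -- sizes
  have hH0 : (0 : ℝ) < H := lt_of_lt_of_le (by positivity) hH1
  have hH1' : 1 ≤ H := by exact_mod_cast hH0
  have hHC1 : (N : ℝ) ^ (1 / 3 : ℝ) * L ^ C1 ≤ H := by
    refine le_trans ?_ hH1
    have : L ^ C1 ≤ L ^ (C1 + B + U + 4) := pow_le_pow_right₀ hL1 (by omega)
    gcongr
  have hHC2 : (H : ℝ) * L ^ C1 ≤ N := by
    refine le_trans ?_ hH2
    have : L ^ C1 ≤ L ^ (C1 + B + U + 4) := pow_le_pow_right₀ hL1 (by omega)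
    gcongr
  have hs : √(N : ℝ) * √(N : ℝ) = N := Real.mul_self_sqrt hN0.le
  have hs2 : 2 ≤ √(N : ℝ) := by
    rw [Real.le_sqrt (by norm_num) hN0.le]
    linarith
  set Y1 : ℕ := ⌊(N : ℝ) / L ^ (U + 2)⌋₊ with hY1
  have hq : 2 * √(N : ℝ) ≤ (N : ℝ) / L ^ (U + 2) := by
    rw [le_div_iff₀ hLU]
    calc 2 * √(N : ℝ) * L ^ (U + 2) = √(N : ℝ) * (2 * L ^ (U + 2)) := by ring
      _ ≤ √(N : ℝ) * √(N : ℝ) := mul_le_mul_of_nonneg_left b3 (Real.sqrt_nonneg _)
      _ = N := hs
  have hY1lo : (N : ℝ) / L ^ (U + 2) < Y1 + 1 := Nat.lt_floor_add_one _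
  have hY1up : (Y1 : ℝ) ≤ (N : ℝ) / L ^ (U + 2) := Nat.floor_le (by positivity)
  have hHN : H ≤ N := by
    have h5 : (H : ℝ) * 1 ≤ H * L ^ (C1 + B + U + 4) := by
      gcongr
      exact one_le_pow₀ hL1
    have : (H : ℝ) ≤ N := by linarith
    exact_mod_cast this
  -- the exceptional set
  set θ : (Fin r → ℤ) → ℝ := fun h => ∑ j, (h j : ℝ) * α j with hθdef
  set bad : (Fin r → ℤ) → Finset ℕ := fun h => (Ioc Y1 N).filter
    (fun n => κ * H < ‖W (fun n => vonMangoldt n - lamz z n) (θ h) n H‖) with hbaddef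
  set E : Finset ℕ := (Icc 1 Y1 ∪ Hs.biUnion bad) ∪ (Icc 1 N).filter (fun n => κ * H < NP n H) with hE
  refine ⟨E, ?_, ?_⟩
  · have g1 : (E.card : ℝ) ≤ (Y1 : ℝ) + ∑ h ∈ Hs, ((bad h).card : ℝ) + (((Icc 1 N).filter (fun n => κ * H < NP n H)).card : ℝ) := by
      have g2 : E.card ≤ (Y1 + ∑ h ∈ Hs, (bad h).card) + ((Icc 1 N).filter (fun n => κ * H < NP n H)).card := by
        refine (card_union_le _ _).trans (Nat.add_le_add_right ((card_union_le _ _).trans ?_) _)
        refine Nat.add_le_add (by simp) card_biUnion_le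
      exact_mod_cast g2
    have g3 : ∑ h ∈ Hs, ((bad h).card : ℝ) ≤ Hs.card * (N / L ^ (U + 1)) := by
      calc ∑ h ∈ Hs, ((bad h).card : ℝ) ≤ ∑ _h ∈ Hs, N / L ^ (U + 1) :=
            sum_le_sum fun h _ => b1 z hzB0 hz2 H hHC1 hHC2 (θ h)
        _ = _ := by rw [sum_const, nsmul_eq_mul]
    have g4 := b2 H hH1' hHN
    have g5 : (Y1 : ℝ) ≤ N / L ^ (U + 1) := by
      refine hY1up.trans ?_
      apply div_le_div_of_nonneg_left hN0.le (by positivity)
      exact pow_le_pow_right₀ hL1 (by omega)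
    have g6 : (Hs.card + 2 : ℝ) * (N / L ^ (U + 1)) ≤ N / L ^ U := by
      calc (Hs.card + 2 : ℝ) * (N / L ^ (U + 1)) ≤ L * (N / L ^ (U + 1)) := mul_le_mul_of_nonneg_right c2 (by positivity)
        _ = N / L ^ U := by
            rw [pow_succ]
            field_simp
    linarith
  · intro n hn1 hnN hnE u v huv hvu
    have hnY : Y1 < n := by
      by_contra hcon
      apply hnE
      rw [hE, mem_union, mem_union, mem_Icc]
      exact Or.inl (Or.inl ⟨hn1, by omega⟩)
    have hgood : ∀ h ∈ Hs, ‖W (fun n => vonMangoldt n - lamz z n) (θ h) n H‖ ≤ κ * H := by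
      intro h hh
      by_contra hcon
      push Not at hcon
      apply hnE
      rw [hE, mem_union, mem_union, mem_biUnion]
      refine Or.inl (Or.inr ⟨h, hh, ?_⟩)
      simp only [hbaddef]
      rw [mem_filter, mem_Ioc]
      exact ⟨⟨hnY, hnN⟩, hcon⟩
    have hnp : NP n H ≤ κ * H := by
      by_contra hcon
      push Not at hcon
      apply hnE
      rw [hE, mem_union, mem_filter, mem_Icc]
      exact Or.inr ⟨⟨hn1, hnN⟩, hcon⟩
    have hnY' : (Y1 : ℝ) + 1 ≤ n := by exact_mod_cast hnY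
    have hnlo : (N : ℝ) / L ^ (U + 2) ≤ n := by linarith
    have hns : √(N : ℝ) ≤ n := by linarith
    have hn0 : (0 : ℝ) < n := by linarith
    have hnNR : (n : ℝ) ≤ N := by exact_mod_cast hnN
    have hlogn1 : Real.log n ≤ L := Real.log_le_log hn0 hnNR
    have hlogn2 : L / 2 ≤ Real.log n := by
      rw [hL, ← Real.log_sqrt hN0.le]
      exact Real.log_le_log (by linarith) hns
    have hlogn0 : 0 < Real.log n := by linarith
    have hnX1 : X1 ≤ n := by
      have h5 : (X1 : ℝ) ≤ √(N : ℝ) := by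
        apply Real.le_sqrt_of_sq_le
        have : X1 ^ 2 ≤ N := by omega
        exact_mod_cast this
      exact_mod_cast h5.trans hns
    have hnX2 : X2 ≤ n := by
      have h5 : (X2 : ℝ) ≤ √(N : ℝ) := by
        apply Real.le_sqrt_of_sq_le
        have : X2 ^ 2 ≤ N := by omega
        exact_mod_cast this
      exact_mod_cast h5.trans hns
    have hHn : H ≤ n := by
      have h5 : (H : ℝ) ≤ (N : ℝ) / L ^ (U + 2) := by
        rw [le_div_iff₀ hLU]
        refine le_trans ?_ hH2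
        have : L ^ (U + 2) ≤ L ^ (C1 + B + U + 4) := pow_le_pow_right₀ hL1 (by omega)
        gcongr
      exact_mod_cast h5.trans hnlo
    have hzn : (z : ℝ) ≤ Real.log n ^ (mx + 2) := by
      refine hz2.trans ?_
      calc L ^ (mx + 1) ≤ (L / 2) ^ (mx + 2) := by
            rw [div_pow, le_div_iff₀ (by positivity), pow_succ L (mx + 1)]
            exact mul_le_mul_of_nonneg_left c1 (by positivity)
        _ ≤ _ := pow_le_pow_left₀ (by linarith) hlogn2 _
    have hH14 : (n : ℝ) ^ (1 / 4 : ℝ) ≤ H := by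
      calc (n : ℝ) ^ (1 / 4 : ℝ) ≤ (N : ℝ) ^ (1 / 4 : ℝ) := Real.rpow_le_rpow hn0.le hnNR (by norm_num)
        _ ≤ (N : ℝ) ^ (1 / 3 : ℝ) := Real.rpow_le_rpow_of_exponent_le (by linarith) (by norm_num)
        _ ≤ (N : ℝ) ^ (1 / 3 : ℝ) * L ^ C1 := le_mul_of_one_le_right (by positivity) (one_le_pow₀ hL1)
        _ ≤ H := hHC1
    have hsplit : ∀ θ : ℝ, W (fun n => vonMangoldt n) θ n H = W (fun n => vonMangoldt n - lamz z n) θ n H + W (lamz z) θ n H := by
      intro θ
      unfold W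
      rw [← sum_add_distrib]
      refine sum_congr rfl fun m _ => ?_
      push_cast
      ring
    have h0mem : (0 : Fin r → ℤ) ∈ Hs := by
      rw [hHs, Fintype.mem_piFinset]
      intro j
      rw [mem_Icc]
      simp
    have hθ0 : θ 0 = 0 := by simp [hθdef]
    have hmain0 : ‖W (fun n => vonMangoldt n) 0 n H - H‖ ≤ 2 * κ * H := by
      rw [hsplit 0]
      have g1 := hgood 0 h0mem
      rw [hθ0] at g1
      have g2 := hX2 n hnX2 z hz0 hzn H hH14
      calc _ = ‖W (fun n => vonMangoldt n - lamz z n) 0 n H + (W (lamz z) 0 n H - H)‖ := by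
            congr 1
            ring
        _ ≤ _ := (norm_add_le _ _).trans (by linarith)
    have hmain : ∀ h : Fin r → ℤ, h ≠ 0 → (∀ j, |h j| ≤ M) → ‖W (fun n => vonMangoldt n) (θ h) n H - ((0 : ℝ) : ℂ)‖ ≤ 2 * κ * H := by
      intro h hh0 hhM
      have hhmem : h ∈ Hs := by
        rw [hHs, Fintype.mem_piFinset]
        intro j
        rw [mem_Icc]
        exact abs_le.1 (hhM j)
      have g2 := hX1 n hnX1 z (le_trans (pow_le_pow_left₀ hlogn0.le hlogn1 _) hzB) hzn H hH14 hHn (θ h) (by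
        intro d hd1 hdD b
        have e1 := hα (fun j => (d : ℤ) * h j) (by
          intro h0
          apply hh0
          funext j
          have := congrFun h0 j
          simp only [Pi.zero_apply, mul_eq_zero] at this
          rcases this with h5 | h5
          · exfalso
            have : d = 0 := by exact_mod_cast h5
            omega
          · exact h5) (by
          intro j
          rw [abs_mul, Nat.abs_cast]
          push_cast
          exact mul_le_mul (by exact_mod_cast hdD) (hhM j) (abs_nonneg _) (by positivity)) b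
        have hd0 : (0 : ℝ) < d := by exact_mod_cast hd1
        have e2 : ∑ j, (((d : ℤ) * h j : ℤ) : ℝ) * α j - b = d * (θ h - b / d) := by
          have : ∑ j, (((d : ℤ) * h j : ℤ) : ℝ) * α j = d * θ h := by
            simp only [hθdef]
            rw [mul_sum]
            refine sum_congr rfl fun j _ => ?_
            push_cast
            ring
          rw [this]
          field_simp
        rw [e2, abs_mul, abs_of_pos hd0] at e1
        have e3 : (d : ℝ) ≤ L := by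
          have : (d : ℝ) ≤ Dm := by exact_mod_cast hdD
          linarith
        have e4 : L ^ (B + 1) / H ≤ L ^ (C1 + B + U + 4) / H := by
          apply div_le_div_of_nonneg_right _ hH0.le
          exact pow_le_pow_right₀ hL1 (by omega)
        have e5 : Real.log n ^ B ≤ L ^ B := pow_le_pow_left₀ hlogn0.le hlogn1 _
        have e6 : (d : ℝ) * (Real.log n ^ B / H) ≤ L ^ (B + 1) / H := by
          rw [pow_succ, mul_comm (L ^ B) L, mul_div_assoc]
          apply mul_le_mul e3 _ (by positivity) hL0.le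
          exact div_le_div_of_nonneg_right e5 hH0.le
        have e7 : (d : ℝ) * (Real.log n ^ B / H) < d * |θ h - b / d| := by linarith
        exact lt_of_mul_lt_mul_left e7 hd0.le)
      have g1 := hgood h hhmem
      rw [Complex.ofReal_zero, sub_zero, hsplit (θ h)]
      exact (norm_add_le _ _).trans (by linarith)
    -- the criterion of Weyl
    have hZ0 : (0 : ℝ) ≤ H / L := by positivity
    have hfin := hweyl ((Ioc n (n + H)).filter Nat.Prime) (fun _ => 1) (fun p j => α j * p) (H / L)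
      (fun _ _ => zero_le_one) hZ0 (by
        have g1 := toprimes N n H U κ hκ0 hκ1 hL3 hbig hnlo hnN hHn hlogn2 hmain0 hnp 0 H (by
          rw [Complex.ofReal_natCast]
          exact hmain0)
        have g2 : ∑ p ∈ (Ioc n (n + H)).filter Nat.Prime, ee ((p : ℝ) * 0) = ((∑ _p ∈ (Ioc n (n + H)).filter Nat.Prime, (1 : ℝ) : ℝ) : ℂ) := by
          push_cast
          refine sum_congr rfl fun p _ => ?_
          rw [mul_zero, ee_zero]
        rw [g2, ← Complex.ofReal_sub, Complex.norm_real, Real.norm_eq_abs] at g1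
        exact g1.trans (mul_le_mul_of_nonneg_right hκδ hZ0)) (by
        intro h hh0 hhM
        have g1 := toprimes N n H U κ hκ0 hκ1 hL3 hbig hnlo hnN hHn hlogn2 hmain0 hnp (θ h) 0 (hmain h hh0 hhM)
        rw [zero_div, Complex.ofReal_zero, sub_zero] at g1
        refine le_trans (le_of_eq ?_) (g1.trans (mul_le_mul_of_nonneg_right hκδ hZ0))
        congr 1
        refine sum_congr rfl fun p _ => ?_
        rw [Complex.ofReal_one, one_mul, eET]
        congr 1
        simp only [hθdef]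
        rw [mul_sum]
        refine sum_congr rfl fun j _ => ?_
        ring) u v huv hvu
    have hcnt : ∑ p ∈ ((Ioc n (n + H)).filter Nat.Prime).filter (fun p : ℕ => ∀ j, Int.fract (α j * p - u j) < v j - u j), (1 : ℝ) =
        (((Ioc n (n + H)).filter (fun p : ℕ => p.Prime ∧ ∀ j, Int.fract (α j * p - u j) < v j - u j)).card : ℝ) := by
      rw [filter_filter]
      simp
    rw [← hcnt]
    exact hfin

/-- Beatty sequences -/
lemma beatty_iff (β γ : ℝ) (hβ : 1 ≤ β) (p : ℕ) :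
    (∃ m : ℤ, (p : ℤ) = ⌊β * m + γ⌋) ↔ Int.fract ((-(1 / β)) * p - (-(γ / β))) < (-(γ / β) + 1 / β) - (-(γ / β)) := by
  have hβ0 : 0 < β := by linarith
  have h1 : (-(1 / β)) * p - (-(γ / β)) = (γ - p) / β := by
    field_simp
    ring
  have h2 : (-(γ / β) + 1 / β) - (-(γ / β)) = 1 / β := by ring
  rw [h1, h2]
  constructor
  · rintro ⟨m, hm⟩
    have h3 := (Int.floor_eq_iff.1 hm.symm)
    push_cast at h3
    have h4 : 0 ≤ (γ - p) / β + m := by
      have : (γ - p) / β + m = (β * m + γ - p) / β := by field_simp; ring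
      rw [this]
      exact div_nonneg (by linarith [h3.1]) hβ0.le
    have h5 : (γ - p) / β + m < 1 / β := by
      have : (γ - p) / β + m = (β * m + γ - p) / β := by field_simp; ring
      rw [this]
      exact div_lt_div_of_pos_right (by linarith [h3.2]) hβ0
    have h6 : 1 / β ≤ 1 := by
      rw [div_le_one hβ0]
      exact hβ
    have h7 : Int.fract ((γ - p) / β) = (γ - p) / β + m := by
      rw [Int.fract_eq_iff]
      refine ⟨h4, by linarith, -m, ?_⟩
      push_cast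
      ring
    rw [h7]
    exact h5
  · intro h
    refine ⟨-⌊(γ - p) / β⌋, ?_⟩
    symm
    rw [Int.floor_eq_iff]
    have h3 : Int.fract ((γ - p) / β) = (γ - p) / β - ⌊(γ - p) / β⌋ := rfl
    have h4 := Int.fract_nonneg ((γ - p) / β)
    rw [h3] at h h4
    push_cast
    have h5 : β * ((γ - p) / β - ⌊(γ - p) / β⌋) = (γ - p) - β * ⌊(γ - p) / β⌋ := by field_simp
    have h6 : 0 ≤ β * ((γ - p) / β - ⌊(γ - p) / β⌋) := mul_nonneg hβ0.le h4
    have h7 : β * ((γ - p) / β - ⌊(γ - p) / β⌋) < β * (1 / β) := mul_lt_mul_of_pos_left h hβ0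
    have h8 : β * (1 / β) = 1 := by field_simp
    constructor <;> nlinarith

open scoped Classical in
/-- **Primes in intersections of Beatty sequences in almost all intervals of length `N^(1/3) log^C N`** -/
theorem beatty (hALL : S_ALL) (r U : ℕ) (ε : ℝ) (hε : 0 < ε) : ∃ D C N₀ : ℕ, ∀ N : ℕ, N₀ ≤ N → ∀ H : ℕ,
    (N : ℝ) ^ (1 / 3 : ℝ) * Real.log N ^ C ≤ H → (H : ℝ) * Real.log N ^ C ≤ N → ∀ β : Fin r → ℝ, (∀ j, 1 ≤ β j) →
    (∀ h : Fin r → ℤ, h ≠ 0 → (∀ j, |h j| ≤ D) → ∀ b : ℤ, Real.log N ^ C / H < |∑ j, (h j : ℝ) / β j - b|) →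
    ∃ E : Finset ℕ, (E.card : ℝ) ≤ N / Real.log N ^ U ∧ ∀ n : ℕ, 1 ≤ n → n ≤ N → n ∉ E → ∀ γ : Fin r → ℝ,
      |(((Ioc n (n + H)).filter (fun p : ℕ => p.Prime ∧ ∀ j, ∃ m : ℤ, (p : ℤ) = ⌊β j * m + γ j⌋)).card : ℝ) -
        H / Real.log N / ∏ j, β j| ≤ ε * (H / Real.log N) := by
  classical
  obtain ⟨D, C, N₀, h⟩ := bohr hALL r U ε hε
  refine ⟨D, C, N₀, fun N hN H hH1 hH2 β hβ hnd => ?_⟩
  obtain ⟨E, hE1, hE2⟩ := h N hN H hH1 hH2 (fun j => -(1 / β j)) (by
    intro g hg0 hgD b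
    have h1 := hnd (-g) (neg_ne_zero.2 hg0) (fun j => by rw [Pi.neg_apply, abs_neg]; exact hgD j) b
    have h2 : ∑ j, (((-g) j : ℤ) : ℝ) / β j = ∑ j, (g j : ℝ) * -(1 / β j) := by
      refine sum_congr rfl fun j _ => ?_
      rw [Pi.neg_apply]
      push_cast
      ring
    rw [h2] at h1
    exact h1)
  refine ⟨E, hE1, fun n hn1 hnN hnE γ => ?_⟩
  have h3 := hE2 n hn1 hnN hnE (fun j => -(γ j / β j)) (fun j => -(γ j / β j) + 1 / β j)
    (fun j => by
      have : 0 ≤ 1 / β j := by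
        have := hβ j
        positivity
      linarith)
    (fun j => by
      have h4 := hβ j
      have : 1 / β j ≤ 1 := by
        rw [div_le_one (by linarith)]
        exact h4
      linarith)
  have h4 : (Ioc n (n + H)).filter (fun p : ℕ => p.Prime ∧ ∀ j, ∃ m : ℤ, (p : ℤ) = ⌊β j * m + γ j⌋) =
      (Ioc n (n + H)).filter (fun p : ℕ => p.Prime ∧ ∀ j, Int.fract ((-(1 / β j)) * p - (-(γ j / β j))) <
        (-(γ j / β j) + 1 / β j) - (-(γ j / β j))) := by
    refine filter_congr fun p _ => ?_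
    simp_rw [beatty_iff _ _ (hβ _) p]
  have h5 : ∏ j, ((-(γ j / β j) + 1 / β j) - (-(γ j / β j))) = (∏ j, β j)⁻¹ := by
    rw [← Finset.prod_inv_distrib]
    refine prod_congr rfl fun j _ => ?_
    ring
  rw [h4]
  rw [h5] at h3
  have h6 : (H : ℝ) / Real.log N / ∏ j, β j = (∏ j, β j)⁻¹ * (H / Real.log N) := by
    rw [div_eq_mul_inv _ (∏ j, β j)]
    ring
  rw [h6]
  exact h3

end Pool.Agent.Run7.h609.MK
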